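import Pool.Agent.X287.SectCurve
import Pool.Agent.TH942.Ner
import Pool.Agent.TH941.Newform

/-!
# One-sided numerical forms of the conjecture of Birch and Swinnerton-Dyer with zero-free sectors

Let `C : y² = x³ + a x + b` be an elliptic curve over `ℚ`, `a, b ∈ ℤ`, let `F` be the entire continuation
of its incomplete `L`-series, `m = ord_{s=1} F`, `N_p` the number of affine points modulo `p ∤ 2Δ`, and
`R(X)` the number of the rational points of height `≤ X`. For `1 < ρ < ρ'` let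

`S_ρ(X) = ∑ w_ρ(log p / log X) log ((N_p + 1)/p)`, `p ≤ exp ((log X)^ρ')`, `p ∤ 2Δ`,

a finite sum, where `w_ρ(u) = (2π)⁻¹ ∫ Re (exp (z - u z^(1/ρ)) / z) dt`, `z = 1 + it`, is the smooth weight
with the Laplace transform (in the variable `v`) `∫₀^∞ w_ρ(u v^(-1/ρ)) e^(-vz) dv = exp (- u z^(1/ρ)) / z`,
`w_ρ(0) = 1`. Such sums do not see the whole half plane `Re s > 1`, but precisely the open sector
`V_ρ = {|arg (s - 1)| < π/(2ρ)}`. It is shown, for every curve, without any hypothesis: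

* a zero `s ∈ V_ρ` of `F` makes `S_ρ(X) > C exp (θ (log X)^ρ)` for arbitrarily large `X`, for all `C` and all
  `θ < Re ((s - 1)^ρ)`. (In particular the ONE-SIDED exponent of growth of `S_ρ` and the exponent of growth of
  `|S_ρ|` are both equal to the supremum of `Re ((s - 1)^ρ)` over the zeros `s ∈ V_ρ`, or to `0` if there are none.)
* `limsup S_ρ(X) / log log X ≤ r` if and only if `F` has no zeros in `V_ρ` and `m ≤ r`.
* The following are equivalent: (i) `m = rank C(ℚ)` and `F` has no zeros in `V_ρ`; (ii)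
  `limsup S_ρ(X) / log log X = rank C(ℚ)`; (iii) `S_ρ(X) - 2 log R(X)` is bounded.
* The following are equivalent: (i) `m ≤ rank C(ℚ)` and `F` has no zeros in `V_ρ`; (ii)
  `S_ρ(X) ≤ 2 log R(X) + O(1)`; (iii) `S_ρ(X) ≤ 2 log R(X) + o(log log X)`.
* If `F` has no zeros in `V_ρ`, then `S_ρ(X) = m log log X + κ + o(1)` with the exact constant
  `exp κ = √2 e^(mγ/ρ) m! / F^(m)(1)`.

Hence the rank form of the conjecture together with the absence of REAL zeros `> 1` is equivalent to the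
boundedness of `S_ρ(X) - 2 log R(X)` for SOME `ρ > 1`, and together with the absence of all zeros in the half plane
`Re s > 1` it is equivalent to this for ALL `ρ > 1` (or for a sequence `ρ → 1`); the same holds for
`m ≤ rank C(ℚ)` and `S_ρ(X) ≤ 2 log R(X) + O(1)`. So one has a scale of numerical forms of the conjecture between
the one which is unconditionally correct for the curves without real zeros `> 1` and those which need the full
Riemann hypothesis.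

Proof. For `y = (log X)^ρ` the function `y S_ρ` has (up to a bounded error of `S_ρ`) a Laplace transform which is
explicit in `F(1 + v^(1/ρ))`, `Re v > 0`: the half plane `Re v > 0` corresponds to the sector. If `S_ρ` is bounded
above by `C e^(ay)`, let `ξ > a` be the largest real zero of `F(1 + v^(1/ρ))`. By Landau's theorem the Laplace
transform of the nonnegative function `A e^(a'y) - y S_ρ` converges for all `v > ξ`; it is nonnegative, so a primitive,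
which contains `log F(1 + v^(1/ρ))`, is monotone, and this is impossible for `v → ξ`. Hence there are no real
zeros, and Landau's theorem again and the differential equation satisfied by the Laplace transform show that
`F(1 + v^(1/ρ)) ≠ 0` for `Re v > a`. The number of rational points is estimated with Néron's canonical
height. The tools are in `Pool.Agent.X287.Sect*` (one-sided part, new) and `Pool.Agent.TH942.SL`, `Ner`.
-/

set_option autoImplicit false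

namespace Pool.Agent.Results.MP_696deb_nt.SectorialOneSided

open Filter Topology Classical MeasureTheory Set CongruenceSubgroup UpperHalfPlane
open scoped MatrixGroups

/-- `N_p`: the number of pairs `(x, y) ∈ (ℤ/p)²` with `y² = x³ + a x + b`. -/
noncomputable def N (a b : ℤ) (p : ℕ) : ℕ :=
  Nat.card {q : ZMod p × ZMod p // q.2 ^ 2 = q.1 ^ 3 + (a : ZMod p) * q.1 + (b : ZMod p)}

/-- `p` is a prime not dividing `2Δ`, `Δ = -4 a³ - 27 b²`. -/
def Good (a b : ℤ) (p : ℕ) : Prop :=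
  p.Prime ∧ ¬ ((p : ℤ) ∣ 2 * (-4 * a ^ 3 - 27 * b ^ 2))

/-- `F` is entire and for `Re s > 3/2` it is the incomplete `L`-series
`∏_{p ∤ 2Δ} (1 - a_p p^{-s} + p^{1-2s})⁻¹`, `a_p = p - N_p`, of `y² = x³ + a x + b`. -/
def IsLSeries (a b : ℤ) (F : ℂ → ℂ) : Prop :=
  Differentiable ℂ F ∧ ∀ s : ℂ, (3 : ℝ) / 2 < s.re →
    HasProd (fun p : ℕ => if Good a b p then
      (1 - ((p : ℂ) - (N a b p : ℂ)) * (p : ℂ) ^ (-s) + (p : ℂ) ^ (1 - 2 * s))⁻¹ else 1) (F s)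

/-- The rank of the group of rational points of `y² = x³ + a x + b`. -/
noncomputable def rank (a b : ℤ) : ℕ :=
  Module.finrank ℤ
    (WeierstrassCurve.Affine.Point
      (WeierstrassCurve.toAffine
        ({ a₁ := 0, a₂ := 0, a₃ := 0, a₄ := (a : ℚ), a₆ := (b : ℚ) } : WeierstrassCurve ℚ)))

/-- The number of rational points of `y² = x³ + a x + b` of height at most `X`: the point at infinity
and the points `(x, y)` with `x = u / v` in lowest terms, `max (|u|, v) ≤ X`. -/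
noncomputable def numPoints (a b : ℤ) (X : ℝ) : ℕ :=
  Nat.card {P : ℚ × ℚ // P.2 ^ 2 = P.1 ^ 3 + a * P.1 + b ∧
    (max P.1.num.natAbs P.1.den : ℝ) ≤ X} + 1

/-- The weight `w_ρ(u) = (2π)⁻¹ ∫ Re (exp (z - u z^(1/ρ)) / z) dt`, `z = 1 + it`. -/
noncomputable def wt (ρ u : ℝ) : ℝ :=
  (2 * Real.pi)⁻¹ * ∫ t : ℝ, (Complex.exp ((1 + t * Complex.I) -
    u * (1 + t * Complex.I) ^ ((ρ⁻¹ : ℝ) : ℂ)) / (1 + t * Complex.I)).re

/-- The finite sum `∑ w_ρ(log p / log X) log ((N_p + 1)/p)` over the primes `p ∤ 2Δ`, `p ≤ exp ((log X)^ρ')`. -/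
noncomputable def S (a b : ℤ) (ρ ρ' X : ℝ) : ℝ :=
  ∑ p ∈ (Finset.range (⌊Real.exp (Real.log X ^ ρ')⌋₊ + 1)).filter (Good a b),
    wt ρ (Real.log p / Real.log X) * Real.log (((N a b p : ℝ) + 1) / p)

/-- The open sector `|arg (s - 1)| < π/(2ρ)`, with the vertex `1`, of the angle `π/ρ`. -/
def Sector (ρ : ℝ) : Set ℂ := {s | s ≠ 1 ∧ |(s - 1).arg| < Real.pi / (2 * ρ)}

/-- `F` has no zeros in the sector. -/
def ZeroFree (F : ℂ → ℂ) (ρ : ℝ) : Prop := ∀ s ∈ Sector ρ, F s ≠ 0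

/-- The `n`-th Fourier coefficient of `f`. -/
noncomputable def coef {M : ℕ} (f : CuspForm (Gamma0 M : Subgroup (GL (Fin 2) ℝ)) 2) (n : ℕ) : ℂ :=
  (qExpansion 1 f).coeff n

/-- `f ∈ S_2(Γ₀(M))` is the newform of the elliptic curve `y² = x³ + a x + b` of conductor `M`: the
Fourier coefficients `c(n)` of `f` are real with `c(1) = 1`, they satisfy the Hecke relations
`c(mn) = c(m) c(n)` for coprime `m`, `n` and `c(p^(j+2)) = c(p) c(p^(j+1)) - p c(p^j)` (without the last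
term if `p ∣ M`), `c(p) = a_p = p - N_p` (`N_p` affine points) for all primes `p ∤ 2Δ`, `|c(p)| ≤ 2 √p` for
all `p ∤ M` (Hasse) and `c(p) = 0, 1, -1` for `p ∣ M`. -/
structure IsNewformOf (a b : ℤ) (M : ℕ) (f : CuspForm (Gamma0 M : Subgroup (GL (Fin 2) ℝ)) 2) :
    Prop where
  one : coef f 1 = 1
  real : ∀ n, (coef f n).im = 0
  mul : ∀ m n : ℕ, Nat.Coprime m n → coef f (m * n) = coef f m * coef f n
  pow : ∀ p j : ℕ, p.Prime → coef f (p ^ (j + 2)) = coef f p * coef f (p ^ (j + 1)) -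
      (if p ∣ M then 0 else (p : ℂ) * coef f (p ^ j))
  points : ∀ p : ℕ, Good a b p → coef f p = (p : ℂ) - (N a b p : ℂ)
  good : ∀ p : ℕ, p.Prime → ¬ p ∣ M → ‖coef f p‖ ≤ 2 * Real.sqrt p
  bad : ∀ p : ℕ, p.Prime → p ∣ M → coef f p = 0 ∨ coef f p = 1 ∨ coef f p = -1

variable {a b : ℤ} {F : ℂ → ℂ}

theorem hecke {M : ℕ} {f : CuspForm (Gamma0 M : Subgroup (GL (Fin 2) ℝ)) 2}
    (hf : IsNewformOf a b M f) : Pool.Agent.TH941.Hecke f where
  one := hf.one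
  real := hf.real
  mul := hf.mul
  pow := hf.pow
  good := hf.good
  bad := fun p hp h => by
    rcases hf.bad p hp h with h1 | h1 | h1
    · have h2 : ‖coef f p‖ ≤ 1 := by rw [h1]; simp
      exact h2
    · have h2 : ‖coef f p‖ ≤ 1 := by rw [h1]; simp
      exact h2
    · have h2 : ‖coef f p‖ ≤ 1 := by rw [h1]; simp
      exact h2

theorem S_eq (ρ ρ' X : ℝ) : S a b ρ ρ' X = Pool.Agent.TH942.SL.Sr a b ρ ρ' X := rfl

theorem numPoints_growth (hΔ : 4 * a ^ 3 + 27 * b ^ 2 ≠ 0) : ∃ κ : ℝ,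
    Tendsto (fun X : ℝ => 2 * Real.log (numPoints a b X) - rank a b * Real.log (Real.log X)) atTop
      (𝓝 κ) := by
  obtain ⟨κ, hκ, h⟩ := Pool.Agent.TH942.ratCount_growth hΔ
  refine ⟨2 * Real.log κ, ?_⟩
  have h1 := ((Real.continuousAt_log hκ.ne').tendsto.comp h).const_mul 2
  refine h1.congr' ?_
  filter_upwards [eventually_gt_atTop 1] with X hX
  have hT : 0 < Real.log X := Real.log_pos hX
  simp only [Function.comp_apply]
  have e1 : (0 : ℝ) < (Pool.Agent.TH942.ratCount a b X : ℝ) := by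
    unfold Pool.Agent.TH942.ratCount
    positivity
  have e2 : Module.finrank ℤ (Pool.Agent.TH942.SPt (a : ℚ) (b : ℚ)) = rank a b := rfl
  have e3 : numPoints a b X = Pool.Agent.TH942.ratCount a b X := rfl
  rw [e2, e3, Real.log_div e1.ne' (Real.rpow_pos_of_pos hT _).ne', Real.log_rpow hT]
  ring

theorem loglog_atTop : Tendsto (fun X : ℝ => Real.log (Real.log X)) atTop atTop :=
  Real.tendsto_log_atTop.comp Real.tendsto_log_atTop

theorem negligible {g : ℝ → ℝ} {κ ε : ℝ} (hg : Tendsto g atTop (𝓝 κ)) (hε : 0 < ε) :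
    ∀ᶠ X : ℝ in atTop, |g X| ≤ ε * Real.log (Real.log X) := by
  have h1 : ∀ᶠ X in atTop, |g X| < |κ| + 1 := hg.abs.eventually (gt_mem_nhds (lt_add_one _))
  have h2 := (loglog_atTop.const_mul_atTop hε).eventually_ge_atTop (|κ| + 1)
  filter_upwards [h1, h2] with X e1 e2
  linarith

/-- `F` has no zeros in the sector and order `m`: the sums are `m log log X + O(1)`. -/
theorem up (hF : IsLSeries a b F) {ρ ρ' : ℝ} (hρ : 1 < ρ) (hρ' : ρ < ρ') {m : ℕ}
    (hm : analyticOrderAt F 1 = m) (hz : ZeroFree F ρ) :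
    ∃ B : ℝ, 0 ≤ B ∧ ∀ᶠ X : ℝ in atTop, |S a b ρ ρ' X - m * Real.log (Real.log X)| ≤ B :=
  Pool.Agent.TH942.SL.Sr_up (a := a) (b := b) hF hρ hρ' hm fun s h1 h2 => hz s ⟨h1, h2⟩

/-- upper bounds -/
theorem limsup_iff (hF : IsLSeries a b F) {ρ ρ' : ℝ} (hρ : 1 < ρ) (hρ' : ρ < ρ') {m : ℕ}
    (hm : analyticOrderAt F 1 = m) (r : ℝ) :
    (∀ ε : ℝ, 0 < ε → ∀ᶠ X : ℝ in atTop, S a b ρ ρ' X ≤ (r + ε) * Real.log (Real.log X)) ↔
      ZeroFree F ρ ∧ (m : ℝ) ≤ r := by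
  constructor
  · intro h
    obtain ⟨h1, h2⟩ := Pool.Agent.X287.Sect.Sr_limsup (a := a) (b := b) hF hρ hρ' hm h
    exact ⟨fun s hs => h1 s hs.1 hs.2, h2⟩
  · rintro ⟨hz, hr⟩ ε hε
    obtain ⟨B, hB, h⟩ := up hF hρ hρ' hm hz
    have hBt : Tendsto (fun _ : ℝ => B) atTop (𝓝 B) := tendsto_const_nhds
    filter_upwards [h, negligible hBt hε, loglog_atTop.eventually_ge_atTop 0] with X e1 e2 e3
    have e4 := (abs_le.1 e1).2
    have e5 := le_abs_self B
    have e6 : (m : ℝ) * Real.log (Real.log X) ≤ r * Real.log (Real.log X) :=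
      mul_le_mul_of_nonneg_right hr e3
    linarith

/-- **the comparison with the rational points, equality** -/
theorem tfae_rank (hΔ : 4 * a ^ 3 + 27 * b ^ 2 ≠ 0) (hF : IsLSeries a b F) {ρ ρ' : ℝ} (hρ : 1 < ρ)
    (hρ' : ρ < ρ') {m : ℕ} (hm : analyticOrderAt F 1 = m) : List.TFAE [
      analyticOrderAt F 1 = rank a b ∧ ZeroFree F ρ,
      (∀ ε : ℝ, 0 < ε → ∀ᶠ X : ℝ in atTop,
          S a b ρ ρ' X ≤ (rank a b + ε) * Real.log (Real.log X)) ∧
        ∀ ε : ℝ, 0 < ε → ∃ᶠ X : ℝ in atTop,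
          (rank a b - ε) * Real.log (Real.log X) ≤ S a b ρ ρ' X,
      ∃ B : ℝ, ∀ᶠ X : ℝ in atTop, |S a b ρ ρ' X - 2 * Real.log (numPoints a b X)| ≤ B] := by
  obtain ⟨κ₀, hN⟩ := numPoints_growth (a := a) (b := b) hΔ
  set r : ℕ := rank a b with hr
  tfae_have 1 → 3 := by
    rintro ⟨h1, hz⟩
    obtain ⟨B, hB, h⟩ := up hF hρ hρ' hm hz
    have h3 : m = r := by
      rw [hm] at h1
      exact_mod_cast h1
    refine ⟨B + (|κ₀| + 1), ?_⟩
    filter_upwards [h, hN.abs.eventually (gt_mem_nhds (lt_add_one _))] with X e1 e2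
    have e3 : S a b ρ ρ' X - 2 * Real.log (numPoints a b X) =
        (S a b ρ ρ' X - m * Real.log (Real.log X)) -
          (2 * Real.log (numPoints a b X) - r * Real.log (Real.log X)) := by
      rw [h3]
      ring
    rw [e3]
    have e4 := abs_sub (S a b ρ ρ' X - m * Real.log (Real.log X))
      (2 * Real.log (numPoints a b X) - r * Real.log (Real.log X))
    linarith
  tfae_have 3 → 2 := by
    rintro ⟨B, h⟩
    have hB : Tendsto (fun _ : ℝ => B) atTop (𝓝 B) := tendsto_const_nhds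
    have key : ∀ ε : ℝ, 0 < ε → ∀ᶠ X : ℝ in atTop,
        |S a b ρ ρ' X - r * Real.log (Real.log X)| ≤ ε * Real.log (Real.log X) := by
      intro ε hε
      filter_upwards [h, negligible hN (ε := ε / 2) (by linarith),
        negligible hB (ε := ε / 2) (by linarith)] with X e1 e2 e3
      have e4 := abs_add_le (S a b ρ ρ' X - 2 * Real.log (numPoints a b X))
        (2 * Real.log (numPoints a b X) - r * Real.log (Real.log X))
      have e5 := le_abs_self B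
      have e6 : S a b ρ ρ' X - r * Real.log (Real.log X) =
          S a b ρ ρ' X - 2 * Real.log (numPoints a b X) +
          (2 * Real.log (numPoints a b X) - r * Real.log (Real.log X)) := by
        ring
      rw [e6]
      linarith
    refine ⟨fun ε hε => ?_, fun ε hε => ?_⟩
    · filter_upwards [key ε hε] with X e1
      have := (abs_le.1 e1).2
      linarith
    · refine Eventually.frequently ?_
      filter_upwards [key ε hε] with X e1
      have := (abs_le.1 e1).1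
      linarith
  tfae_have 2 → 1 := by
    rintro ⟨h1, h2⟩
    obtain ⟨hz, h3⟩ := (limsup_iff hF hρ hρ' hm r).1 h1
    refine ⟨?_, hz⟩
    have h4 : m ≤ r := by exact_mod_cast h3
    rw [hm]
    by_contra hne
    have h5 : m < r := lt_of_le_of_ne h4 fun h => hne (by exact_mod_cast h)
    have h6 : (m : ℝ) + 1 ≤ r := by exact_mod_cast h5
    obtain ⟨B, hB, h7⟩ := up hF hρ hρ' hm hz
    have hBt : Tendsto (fun _ : ℝ => B) atTop (𝓝 B) := tendsto_const_nhds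
    obtain ⟨X, e1, e2, e3, e4⟩ := ((h2 (1 / 4) (by norm_num)).and_eventually
      (h7.and ((negligible hBt (ε := 1 / 4) (by norm_num)).and
        (loglog_atTop.eventually_gt_atTop 0)))).exists
    have e5 := (abs_le.1 e2).2
    have e6 := le_abs_self B
    have e7 : ((m : ℝ) + 1) * Real.log (Real.log X) ≤ r * Real.log (Real.log X) :=
      mul_le_mul_of_nonneg_right h6 e4.le
    nlinarith
  tfae_finish

/-- **the comparison with the rational points, inequality** -/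
theorem tfae_le (hΔ : 4 * a ^ 3 + 27 * b ^ 2 ≠ 0) (hF : IsLSeries a b F) {ρ ρ' : ℝ} (hρ : 1 < ρ)
    (hρ' : ρ < ρ') {m : ℕ} (hm : analyticOrderAt F 1 = m) : List.TFAE [
      analyticOrderAt F 1 ≤ rank a b ∧ ZeroFree F ρ,
      ∃ B : ℝ, ∀ᶠ X : ℝ in atTop, S a b ρ ρ' X ≤ 2 * Real.log (numPoints a b X) + B,
      ∀ ε : ℝ, 0 < ε → ∀ᶠ X : ℝ in atTop,
        S a b ρ ρ' X ≤ 2 * Real.log (numPoints a b X) + ε * Real.log (Real.log X)] := by
  obtain ⟨κ₀, hN⟩ := numPoints_growth (a := a) (b := b) hΔ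
  set r : ℕ := rank a b with hr
  tfae_have 1 → 2 := by
    rintro ⟨h1, hz⟩
    obtain ⟨B, hB, h⟩ := up hF hρ hρ' hm hz
    have h3 : m ≤ r := by
      rw [hm] at h1
      exact_mod_cast h1
    have h3' : (m : ℝ) ≤ r := by exact_mod_cast h3
    refine ⟨B + (|κ₀| + 1), ?_⟩
    filter_upwards [h, hN.abs.eventually (gt_mem_nhds (lt_add_one _)),
      loglog_atTop.eventually_gt_atTop 0] with X e1 e2 e3
    have e4 := (abs_le.1 e1).2
    have e5 := (abs_lt.1 e2).1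
    have e6 : (m : ℝ) * Real.log (Real.log X) ≤ r * Real.log (Real.log X) :=
      mul_le_mul_of_nonneg_right h3' e3.le
    linarith
  tfae_have 2 → 3 := by
    rintro ⟨B, h⟩ ε hε
    have hB : Tendsto (fun _ : ℝ => B) atTop (𝓝 B) := tendsto_const_nhds
    filter_upwards [h, negligible hB hε] with X e1 e2
    have := le_abs_self B
    linarith
  tfae_have 3 → 1 := by
    intro h
    obtain ⟨hz, h3⟩ := (limsup_iff hF hρ hρ' hm r).1 fun ε hε => by
      filter_upwards [h (ε / 2) (by linarith), negligible hN (ε := ε / 2) (by linarith)]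
        with X e1 e2
      have e3 := (abs_le.1 e2).2
      linarith
    refine ⟨?_, hz⟩
    have h4 : m ≤ r := by exact_mod_cast h3
    rw [hm]
    exact_mod_cast h4
  tfae_finish

/-- the half plane is the union of the sectors -/
theorem half_plane : (∀ s : ℂ, 1 < s.re → F s ≠ 0) ↔ ∀ ρ : ℝ, 1 < ρ → ZeroFree F ρ := by
  constructor
  · intro h ρ hρ s hs
    exact h s (Pool.Agent.TH942.SL.re_of_sector hρ hs.1 hs.2)
  · intro h s hs
    obtain ⟨ρ, hρ, h2⟩ := Pool.Agent.TH942.SL.mem_sector hs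
    refine h ρ hρ s ⟨fun h3 => ?_, h2⟩
    rw [h3, Complex.one_re] at hs
    exact lt_irrefl _ hs

/-- a sector contains the narrower ones -/
theorem zeroFree_mono {ρ₁ ρ₂ : ℝ} (h0 : 0 < ρ₁) (h : ρ₁ ≤ ρ₂) (hz : ZeroFree F ρ₁) :
    ZeroFree F ρ₂ := by
  intro s hs
  refine hz s ⟨hs.1, hs.2.trans_le ?_⟩
  exact div_le_div_of_nonneg_left Real.pi_pos.le (by linarith) (by linarith)

/-- **One-sided numerical forms of the conjecture of Birch and Swinnerton-Dyer with zero-free sectors.** -/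
theorem result (a b : ℤ) (hΔ : 4 * a ^ 3 + 27 * b ^ 2 ≠ 0) (F : ℂ → ℂ) (hF : IsLSeries a b F) :
    ∃ m : ℕ, analyticOrderAt F 1 = m ∧
    -- every sector
    (∀ ρ ρ' : ℝ, 1 < ρ → ρ < ρ' →
      -- zeros force large positive sums
      (∀ s ∈ Sector ρ, F s = 0 → ∀ θ C : ℝ, θ < ((s - 1) ^ (ρ : ℂ)).re →
        ∃ᶠ X : ℝ in atTop, C * Real.exp (θ * Real.log X ^ ρ) < S a b ρ ρ' X) ∧
      -- the exact exponent of growth, one-sided and two-sided
      (∀ θ : ℝ, 0 ≤ θ → List.TFAE [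
        ∀ s ∈ Sector ρ, θ < ((s - 1) ^ (ρ : ℂ)).re → F s ≠ 0,
        ∀ ε : ℝ, 0 < ε → ∀ᶠ X : ℝ in atTop, S a b ρ ρ' X ≤ Real.exp ((θ + ε) * Real.log X ^ ρ),
        ∀ ε : ℝ, 0 < ε → ∀ᶠ X : ℝ in atTop,
          |S a b ρ ρ' X| ≤ Real.exp ((θ + ε) * Real.log X ^ ρ)]) ∧
      -- upper bounds of the size `log log X`
      (∀ r : ℝ, (∀ ε : ℝ, 0 < ε → ∀ᶠ X : ℝ in atTop,
          S a b ρ ρ' X ≤ (r + ε) * Real.log (Real.log X)) ↔ ZeroFree F ρ ∧ (m : ℝ) ≤ r) ∧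
      -- the comparison with the rational points
      List.TFAE [
        analyticOrderAt F 1 = rank a b ∧ ZeroFree F ρ,
        (∀ ε : ℝ, 0 < ε → ∀ᶠ X : ℝ in atTop,
            S a b ρ ρ' X ≤ (rank a b + ε) * Real.log (Real.log X)) ∧
          ∀ ε : ℝ, 0 < ε → ∃ᶠ X : ℝ in atTop,
            (rank a b - ε) * Real.log (Real.log X) ≤ S a b ρ ρ' X,
        ∃ B : ℝ, ∀ᶠ X : ℝ in atTop, |S a b ρ ρ' X - 2 * Real.log (numPoints a b X)| ≤ B] ∧
      List.TFAE [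
        analyticOrderAt F 1 ≤ rank a b ∧ ZeroFree F ρ,
        ∃ B : ℝ, ∀ᶠ X : ℝ in atTop, S a b ρ ρ' X ≤ 2 * Real.log (numPoints a b X) + B,
        ∀ ε : ℝ, 0 < ε → ∀ᶠ X : ℝ in atTop,
          S a b ρ ρ' X ≤ 2 * Real.log (numPoints a b X) + ε * Real.log (Real.log X)] ∧
      -- the exact constant
      ∀ (M : ℕ) [NeZero M] (f : CuspForm (Gamma0 M : Subgroup (GL (Fin 2) ℝ)) 2),
        IsNewformOf a b M f → ZeroFree F ρ → ∃ κ : ℝ,
        Tendsto (fun X : ℝ => S a b ρ ρ' X - m * Real.log (Real.log X)) atTop (𝓝 κ) ∧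
        (Real.exp κ : ℂ) * (iteratedDeriv m F 1 / (m.factorial : ℂ)) =
          ((√2 * Real.exp (m * ρ⁻¹ * Real.eulerMascheroniConstant) : ℝ) : ℂ)) ∧
    -- one narrow sector: the rank form and the absence of real zeros
    ((analyticOrderAt F 1 = rank a b ∧ ∀ x : ℝ, 1 < x → F x ≠ 0) ↔
      ∃ ρ ρ' B : ℝ, 1 < ρ ∧ ρ < ρ' ∧ ∀ᶠ X : ℝ in atTop,
        |S a b ρ ρ' X - 2 * Real.log (numPoints a b X)| ≤ B) ∧
    ((analyticOrderAt F 1 ≤ rank a b ∧ ∀ x : ℝ, 1 < x → F x ≠ 0) ↔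
      ∃ ρ ρ' B : ℝ, 1 < ρ ∧ ρ < ρ' ∧ ∀ᶠ X : ℝ in atTop,
        S a b ρ ρ' X ≤ 2 * Real.log (numPoints a b X) + B) ∧
    -- all sectors: the rank form and the absence of zeros in `Re s > 1`
    ((analyticOrderAt F 1 = rank a b ∧ ∀ s : ℂ, 1 < s.re → F s ≠ 0) ↔
      ∀ ρ₀ : ℝ, 1 < ρ₀ → ∃ ρ ρ' B : ℝ, 1 < ρ ∧ ρ < ρ₀ ∧ ρ < ρ' ∧ ∀ᶠ X : ℝ in atTop,
        |S a b ρ ρ' X - 2 * Real.log (numPoints a b X)| ≤ B) ∧
    ((analyticOrderAt F 1 ≤ rank a b ∧ ∀ s : ℂ, 1 < s.re → F s ≠ 0) ↔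
      ∀ ρ₀ : ℝ, 1 < ρ₀ → ∃ ρ ρ' B : ℝ, 1 < ρ ∧ ρ < ρ₀ ∧ ρ < ρ' ∧ ∀ᶠ X : ℝ in atTop,
        S a b ρ ρ' X ≤ 2 * Real.log (numPoints a b X) + B) := by
  obtain ⟨m, hm⟩ : ∃ m : ℕ, analyticOrderAt F 1 = m :=
    Pool.Agent.W189.ML.order_finite_all (a := a) (b := b) hF 1
  have hnarrow : (∀ x : ℝ, 1 < x → F x ≠ 0) ↔ ∃ ρ : ℝ, 1 < ρ ∧ ZeroFree F ρ := by
    constructor
    · intro h
      obtain ⟨ρ, h1, h2⟩ := Pool.Agent.X287.Sect.exists_sector (a := a) (b := b) hF hm h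
      exact ⟨ρ, h1, fun s hs => h2 s hs.1 hs.2⟩
    · rintro ⟨ρ, h1, h2⟩
      exact Pool.Agent.X287.Sect.no_real_of_sector h1 fun s h3 h4 => h2 s ⟨h3, h4⟩
  have hall : (∀ s : ℂ, 1 < s.re → F s ≠ 0) ↔
      ∀ ρ₀ : ℝ, 1 < ρ₀ → ∃ ρ : ℝ, 1 < ρ ∧ ρ < ρ₀ ∧ ZeroFree F ρ := by
    rw [half_plane]
    constructor
    · intro h ρ₀ h0
      exact ⟨(1 + ρ₀) / 2, by linarith, by linarith, h _ (by linarith)⟩
    · intro h ρ hρ
      obtain ⟨ρ₁, h1, h2, h3⟩ := h ρ hρ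
      exact zeroFree_mono (by linarith) h2.le h3
  have hE := fun (ρ ρ' : ℝ) (hρ : 1 < ρ) (hρ' : ρ < ρ') =>
    (tfae_rank hΔ hF hρ hρ' hm).out 0 2
  have hI := fun (ρ ρ' : ℝ) (hρ : 1 < ρ) (hρ' : ρ < ρ') =>
    (tfae_le hΔ hF hρ hρ' hm).out 0 1
  refine ⟨m, hm, fun ρ ρ' hρ hρ' => ⟨fun s hs h0 θ C hθ => ?_, fun θ hθ => ?_, fun r =>
    limsup_iff hF hρ hρ' hm r, tfae_rank hΔ hF hρ hρ' hm, tfae_le hΔ hF hρ hρ' hm,
    fun M _ f hf hz => ?_⟩, ?_, ?_, ?_, ?_⟩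
  · exact Pool.Agent.X287.Sect.Sr_omega (a := a) (b := b) hF hρ hρ' hs.1 hs.2 h0 hθ C
  · tfae_have 1 → 3 := fun h ε hε => Pool.Agent.X287.Sect.Sr_exp (a := a) (b := b) hF hρ hρ' hθ
      (fun s h1 h2 h3 => h s ⟨h1, h2⟩ h3) hε
    tfae_have 3 → 2 := fun h ε hε => (h ε hε).mono fun X hX => (le_abs_self _).trans hX
    tfae_have 2 → 1 := by
      intro h s hs h1 h0
      have h2 := Pool.Agent.X287.Sect.Sr_omega (a := a) (b := b) hF hρ hρ' hs.1 hs.2 h0
        (θ := θ + (((s - 1) ^ (ρ : ℂ)).re - θ) / 2) (by linarith) 1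
      refine h2 ?_
      filter_upwards [h ((((s - 1) ^ (ρ : ℂ)).re - θ) / 2) (by linarith)] with X hX
      rw [not_lt, one_mul]
      exact hX
    tfae_finish
  · exact Pool.Agent.TH942.SL.Sr_lim (a := a) (b := b) hΔ ((hecke hf).rsSum_tendsto hΔ hf.points) hF hρ hρ' hm
      fun s h1 h2 => hz s ⟨h1, h2⟩
  · rw [hnarrow]
    constructor
    · rintro ⟨h1, ρ, hρ, hz⟩
      obtain ⟨B, hB⟩ := (hE ρ (ρ + 1) hρ (by linarith)).1 ⟨h1, hz⟩
      exact ⟨ρ, ρ + 1, B, hρ, by linarith, hB⟩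
    · rintro ⟨ρ, ρ', B, hρ, hρ', hB⟩
      obtain ⟨h1, h2⟩ := (hE ρ ρ' hρ hρ').2 ⟨B, hB⟩
      exact ⟨h1, ρ, hρ, h2⟩
  · rw [hnarrow]
    constructor
    · rintro ⟨h1, ρ, hρ, hz⟩
      obtain ⟨B, hB⟩ := (hI ρ (ρ + 1) hρ (by linarith)).1 ⟨h1, hz⟩
      exact ⟨ρ, ρ + 1, B, hρ, by linarith, hB⟩
    · rintro ⟨ρ, ρ', B, hρ, hρ', hB⟩
      obtain ⟨h1, h2⟩ := (hI ρ ρ' hρ hρ').2 ⟨B, hB⟩
      exact ⟨h1, ρ, hρ, h2⟩
  · rw [hall]
    constructor
    · rintro ⟨h1, h⟩ ρ₀ h0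
      obtain ⟨ρ, hρ, h2, hz⟩ := h ρ₀ h0
      obtain ⟨B, hB⟩ := (hE ρ (ρ + 1) hρ (by linarith)).1 ⟨h1, hz⟩
      exact ⟨ρ, ρ + 1, B, hρ, h2, by linarith, hB⟩
    · intro h
      refine ⟨?_, fun ρ₀ h0 => ?_⟩
      · obtain ⟨ρ, ρ', B, hρ, -, hρ', hB⟩ := h 2 (by norm_num)
        exact ((hE ρ ρ' hρ hρ').2 ⟨B, hB⟩).1
      · obtain ⟨ρ, ρ', B, hρ, h2, hρ', hB⟩ := h ρ₀ h0
        exact ⟨ρ, hρ, h2, ((hE ρ ρ' hρ hρ').2 ⟨B, hB⟩).2⟩
  · rw [hall]
    constructor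
    · rintro ⟨h1, h⟩ ρ₀ h0
      obtain ⟨ρ, hρ, h2, hz⟩ := h ρ₀ h0
      obtain ⟨B, hB⟩ := (hI ρ (ρ + 1) hρ (by linarith)).1 ⟨h1, hz⟩
      exact ⟨ρ, ρ + 1, B, hρ, h2, by linarith, hB⟩
    · intro h
      refine ⟨?_, fun ρ₀ h0 => ?_⟩
      · obtain ⟨ρ, ρ', B, hρ, -, hρ', hB⟩ := h 2 (by norm_num)
        exact ((hI ρ ρ' hρ hρ').2 ⟨B, hB⟩).1
      · obtain ⟨ρ, ρ', B, hρ, h2, hρ', hB⟩ := h ρ₀ h0
        exact ⟨ρ, hρ, h2, ((hI ρ ρ' hρ hρ').2 ⟨B, hB⟩).2⟩

end Pool.Agent.Results.MP_696deb_nt.SectorialOneSided
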