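import Mathlib
import Pool.Agent.X99.C49.Fin

/-!
# All the odd squarefree sums of two squares: the exact proportion of the twists of `X_0(49)` with
# rank `0`, trivial `Ш[2]` and the rank form of the Birch and Swinnerton-Dyer conjecture

`E_D : y² = x³ - 35 D² x - 98 D³` is the quadratic twist by `D` of the curve `X_0(49)`, which has
complex multiplication by the ring of integers of `ℚ(√-7)`. The family consists of ALL the odd
squarefree positive integers `D` which are sums of two squares (equivalently: all the prime factors
of `D` are `1` modulo `4`), ordered by size. There is no condition on the splitting of the prime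
factors in `ℚ(√-7)`.

Theorem. If `E_D(ℚ)` is finite and `Ш(E_D/ℚ)[2] = 0`, then the rank form of the conjecture holds for
`E_D` (the incomplete L-function is entire, and its order of vanishing at `1` and the rank are both
`0`). This happens for exactly the proportion `∏_{i ≥ 0} (1 - 2^{-(2i+1)}) = 0.4194...` of the
`D` of the family.

Proof. The criterion: `E_D(ℚ)` is finite and `Ш[2] = 0` if and only if a matrix over `𝔽₂` is
nonsingular, if and only if the algebraic part of `L(E_D, 1)` has the least possible 2-adic valuation
(`Pool/Agent/X99/C49`, which specialises to `ℚ` the values computed by helper698 and the teams of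
`Pool/Agent/Y698/SG` for the twists of `X_0(49)` over the subfields of cyclotomic fields). The count:
`Pool/Agent/X99/GQ` proves that matrices of quadratic residue symbols with rows indexed by the prime
factors of `D` in arbitrary classes `A` modulo an arbitrary `N`, with the other prime factors in
arbitrary classes `B`, are nonsingular with the limiting probability of random symmetric matrices. It
generalises the count modulo `56` (project CQ of helpers 710, 356, 839, 948, 219, 657, 302, 697, 391,
488, 475, 362, 949, 405, 514 and 703), whose equidistribution, linear algebra and sieve parts it uses.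
-/

set_option autoImplicit false

open Finset

namespace Pool.Agent.Results.MP_696deb_nt.CMTwistsExactProportion

/-- coefficients of the twist `E_D : y² = x³ + A D x + B D` of `X_0(49)` -/
def A (D : ℤ) : ℤ := -35 * D ^ 2

/-- coefficients of the twist `E_D : y² = x³ + A D x + B D` of `X_0(49)` -/
def B (D : ℤ) : ℤ := -98 * D ^ 3

/-- the curve `E_D` over `ℚ` -/
def E (D : ℤ) : WeierstrassCurve ℚ :=
  { a₁ := 0, a₂ := 0, a₃ := 0, a₄ := (A D : ℚ), a₆ := (B D : ℚ) }

/-- `E_D(ℚ)` is finite and `Ш(E_D/ℚ)` has no element of order two -/
def RankZeroShaTwo (D : ℤ) : Prop :=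
  Finite (E D).toAffine.Point ∧ ∀ x : Pool.Agent.TH841.SH.D.Sha (E D), 2 • x = 0 → x = 0

/-- the conclusion of the frozen statement for `y² = x³ + a x + b`, together with the fact that the
order of vanishing and the rank are both `0` -/
def BSDRankZero (a b : ℤ) : Prop :=
  4 * a ^ 3 + 27 * b ^ 2 ≠ 0 ∧
    ∃ F : ℂ → ℂ, Differentiable ℂ F ∧
      (∀ s : ℂ, (3 : ℝ) / 2 < s.re →
        HasProd
          (fun p : ℕ => open Classical in
            if p.Prime ∧ ¬ ((p : ℤ) ∣ 2 * (-4 * a ^ 3 - 27 * b ^ 2)) then
              (1 - ((p : ℂ) - (Nat.card {q : ZMod p × ZMod p //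
                  q.2 ^ 2 = q.1 ^ 3 + (a : ZMod p) * q.1 + (b : ZMod p)} : ℂ))
                  * (p : ℂ) ^ (-s) + (p : ℂ) ^ (1 - 2 * s))⁻¹
            else 1)
          (F s)) ∧
      analyticOrderAt F 1 =
        ((Module.finrank ℤ
          (WeierstrassCurve.Affine.Point
            (WeierstrassCurve.toAffine
              ({ a₁ := 0, a₂ := 0, a₃ := 0, a₄ := (a : ℚ), a₆ := (b : ℚ) } :
                WeierstrassCurve ℚ))) : ℕ) : ℕ∞) ∧
      Module.finrank ℤ
        (WeierstrassCurve.Affine.Point
          (WeierstrassCurve.toAffine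
            ({ a₁ := 0, a₂ := 0, a₃ := 0, a₄ := (a : ℚ), a₆ := (b : ℚ) } :
              WeierstrassCurve ℚ))) = 0

/-- the family: all the odd squarefree sums of two squares -/
def Family (D : ℕ) : Prop := Squarefree D ∧ Odd D ∧ ∃ x y : ℕ, D = x ^ 2 + y ^ 2

open Classical in
/-- the number of the `D ≤ X` of the family -/
noncomputable def total (X : ℕ) : ℕ := ((Icc 1 X).filter fun D => Family D).card

open Classical in
/-- the number of those with `E_D(ℚ)` finite and `Ш(E_D/ℚ)[2] = 0` -/
noncomputable def good (X : ℕ) : ℕ :=
  ((Icc 1 X).filter fun D => Family D ∧ RankZeroShaTwo D).card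

/-- **The rank form of the conjecture of Birch and Swinnerton-Dyer, with rank zero, for exactly the
proportion `∏ (1 - 2^{-(2i+1)}) = 0.4194...` of the twists of `X_0(49)` by the odd squarefree sums of
two squares.** -/
theorem result :
    (∀ D : ℕ, Family D → RankZeroShaTwo D → BSDRankZero (A D) (B D)) ∧
    Filter.Tendsto (fun X : ℕ => (good X : ℝ) / (total X : ℝ))
      Filter.atTop (nhds (∏' i : ℕ, (1 - (1 / 2 : ℝ) ^ (2 * i + 1)))) := by
  classical
  refine ⟨fun D hF hR => ?_, ?_⟩
  · have hFam := (Pool.Agent.X99.C49.fam_two D).1 hF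
    have hg := (Pool.Agent.X99.C49.crit hFam).1 hR
    obtain ⟨F, h1, h2, h3, h4⟩ := Pool.Agent.X99.C49.bsd hFam hg
    have hD : (D : ℤ) ≠ 0 := by exact_mod_cast hFam.1.ne_zero
    refine ⟨?_, F, h1, h2, ?_, h4⟩
    · have e : 4 * A D ^ 3 + 27 * B D ^ 2 = (4 * (-35) ^ 3 + 27 * (-98) ^ 2) * (D : ℤ) ^ 6 := by
        unfold A B
        ring
      rw [e]
      exact mul_ne_zero (by norm_num) (pow_ne_zero 6 hD)
    · rw [h3]
      have h5 := h4
      unfold A B
      rw [h5]
      rfl
  · refine Pool.Agent.X99.C49.prop.congr fun X =>
      congrArg₂ (fun a b : ℕ => (a : ℝ) / (b : ℝ)) ?_ ?_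
    · refine congrArg Finset.card (Finset.ext fun D => ?_)
      refine (Finset.mem_filter).trans (Iff.trans ?_ (Finset.mem_filter).symm)
      refine and_congr_right fun _ => ?_
      exact and_congr (Pool.Agent.X99.C49.fam_two D).symm Iff.rfl
    · refine congrArg Finset.card (Finset.ext fun D => ?_)
      refine (Finset.mem_filter).trans (Iff.trans ?_ (Finset.mem_filter).symm)
      exact and_congr_right fun _ => (Pool.Agent.X99.C49.fam_two D).symm

end Pool.Agent.Results.MP_696deb_nt.CMTwistsExactProportion
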