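import Pool.Agent.W263.BSD.OrderFinal
import Pool.Agent.W189.ML.Curve

/-!
# A one-sided form of the original conjecture of Birch and Swinnerton-Dyer

Let `C : y² = x³ + a x + b` be an elliptic curve over `ℚ`, `a, b ∈ ℤ`, let `F` be the entire continuation
of its incomplete `L`-series and `N_p` the number of affine points modulo `p ∤ 2Δ`. Let

`P(x) = ∏_{p ≤ x, p ∤ 2Δ} (N_p + 1)/p`

be the original product of Birch and Swinnerton-Dyer. They conjectured `P(x) ∼ c (log x)^rank`, on the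
basis of the numerical growth of `P(x)`. By Goldfeld (1982) such an ASYMPTOTIC formula implies the rank form
of the conjecture and the Riemann hypothesis for `F`. Here only the order of magnitude and one-sided
comparisons of two values of `P` are used.

Theorem. Fix any `δ > 0`. For every elliptic curve over `ℚ`:

* if there is a `K` such that `P(y) ≤ K P(x)` for all large `x` and all `x ≤ y ≤ x^(1+δ)` (`P` does not
  increase by more than a constant factor), then `P(x)` has the exact order of magnitude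
  `(log x)^m`, `m = ord_{s=1} F`, and `F` has no zeros with `Re s > 1`; conversely this order of magnitude
  implies the condition for every `δ`;
* the same holds for the condition `P(x) ≤ K P(y)` (`P` does not decrease by more than a constant
  factor) if `F` has no REAL zeros `> 1`;
* for an integer `r` the inequalities `c (log x)^r ≤ P(x) ≤ C (log x)^r` for all large `x` (`0 < c`, `C` some
  constants), the order of magnitude form of the conjecture for `r = rank`, hold if and only if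
  `ord_{s=1} F = r` and `P(y) ≤ K P(x)` for all large `x` and all `x ≤ y ≤ x^(1+δ)`, for some `K`.

So, given the one-sided condition, the rank form is equivalent to `P(x) ≍ (log x)^rank`, and the condition
is necessary.

Proof. The logarithm of `P(e^u)` is up to a bounded error a function whose Laplace transform is
`log F(1 + s)/s` plus an elementary term. A one-sided condition gives, by a Tauberian argument of Karamata
type with polynomial approximation, upper and lower bounds by the Laplace transform at the real point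
`s = 1/u`, where `log F(1 + s) = m log s + O(1)`; real zeros `> 1` are excluded with Landau's theorem.
See `Pool.Agent.W263.BSD.Order`, `OrderFinal`.
-/

set_option autoImplicit false

open Filter Topology Classical

namespace Pool.Agent.Results.MP_696deb_nt.OneSidedGrowth

/-- `N_p`: the number of pairs `(x, y) ∈ (ℤ/p)²` with `y² = x³ + a x + b`. -/
noncomputable def N (a b : ℤ) (p : ℕ) : ℕ :=
  Nat.card {q : ZMod p × ZMod p // q.2 ^ 2 = q.1 ^ 3 + (a : ZMod p) * q.1 + (b : ZMod p)}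

/-- `p` is a prime not dividing `2Δ`, `Δ = -4 a³ - 27 b²`. -/
def Good (a b : ℤ) (p : ℕ) : Prop :=
  p.Prime ∧ ¬ ((p : ℤ) ∣ 2 * (-4 * a ^ 3 - 27 * b ^ 2))

/-- The original Birch and Swinnerton-Dyer product `P(x) = ∏_{p ≤ x, p ∤ 2Δ} (N_p + 1)/p`. -/
noncomputable def P (a b : ℤ) (x : ℝ) : ℝ :=
  ∏ p ∈ (Finset.range (⌊x⌋₊ + 1)).filter (Good a b), (((N a b p : ℝ) + 1) / p)

/-- `F` is entire and for `Re s > 3/2` it is the incomplete `L`-series
`∏_{p ∤ 2Δ} (1 - a_p p^{-s} + p^{1-2s})⁻¹`, `a_p = p - N_p`, of `y² = x³ + a x + b`. -/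
def IsLSeries (a b : ℤ) (F : ℂ → ℂ) : Prop :=
  Differentiable ℂ F ∧ ∀ s : ℂ, (3 : ℝ) / 2 < s.re →
    HasProd (fun p : ℕ => if Good a b p then
      (1 - ((p : ℂ) - (N a b p : ℂ)) * (p : ℂ) ^ (-s) + (p : ℂ) ^ (1 - 2 * s))⁻¹ else 1) (F s)

/-- The rank of the group of rational points of `y² = x³ + a x + b`. -/
noncomputable def rank (a b : ℤ) : ℕ :=
  Module.finrank ℤ
    (WeierstrassCurve.Affine.Point
      (WeierstrassCurve.toAffine
        ({ a₁ := 0, a₂ := 0, a₃ := 0, a₄ := (a : ℚ), a₆ := (b : ℚ) } : WeierstrassCurve ℚ)))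

/-- `P(x)` has the exact order of magnitude `(log x)^r`. -/
def HasOrder (a b : ℤ) (r : ℕ) : Prop :=
  ∃ c C : ℝ, 0 < c ∧ ∀ᶠ x : ℝ in atTop, c * (Real.log x) ^ r ≤ P a b x ∧
    P a b x ≤ C * (Real.log x) ^ r

/-- Between `x` and `x ^ (1 + δ)` the product does not increase by more than a constant factor. -/
def NoIncrease (a b : ℤ) (δ : ℝ) : Prop :=
  ∃ K : ℝ, ∀ᶠ x : ℝ in atTop, ∀ y : ℝ, x ≤ y → y ≤ x ^ (1 + δ) → P a b y ≤ K * P a b x

/-- Between `x` and `x ^ (1 + δ)` the product does not decrease by more than a constant factor. -/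
def NoDecrease (a b : ℤ) (δ : ℝ) : Prop :=
  ∃ K : ℝ, ∀ᶠ x : ℝ in atTop, ∀ y : ℝ, x ≤ y → y ≤ x ^ (1 + δ) → P a b x ≤ K * P a b y

/-! ### From `δ` to `1` -/

/-- iteration of a one-sided comparison -/
theorem iterate (R : ℝ → ℝ → ℝ → Prop) (hR0 : ∀ x, R 1 x x)
    (hmul : ∀ K L x y z, 0 < K → 0 < L → R K x y → R L y z → R (L * K) x z)
    (hmono : ∀ K L x y, K ≤ L → R K x y → R L x y) {δ : ℝ} (hδ : 0 < δ) {K : ℝ} (hK : 1 ≤ K)
    {X : ℝ} (hX : 1 ≤ X)
    (h : ∀ x, X ≤ x → ∀ y, x ≤ y → y ≤ x ^ (1 + δ) → R K x y) (n : ℕ) :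
    ∀ x, X ≤ x → ∀ y, x ≤ y → y ≤ x ^ ((1 + δ) ^ n) → R (K ^ n) x y := by
  induction n with
  | zero =>
    intro x hx y h1 h2
    rw [pow_zero, Real.rpow_one] at h2
    rw [pow_zero, le_antisymm h2 h1]
    exact hR0 x
  | succ n ih =>
    intro x hx y h1 h2
    have hx1 : 1 ≤ x := hX.trans hx
    by_cases h3 : y ≤ x ^ ((1 + δ) ^ n)
    · refine hmono _ _ _ _ ?_ (ih x hx y h1 h3)
      exact pow_le_pow_right₀ hK (Nat.le_succ n)
    · push Not at h3
      have h4 : x ≤ x ^ ((1 + δ) ^ n) := by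
        nth_rewrite 1 [← Real.rpow_one x]
        exact Real.rpow_le_rpow_of_exponent_le hx1 (one_le_pow₀ (by linarith))
      have h5 := ih x hx _ h4 le_rfl
      have h6 := h _ (hx.trans h4) y h3.le (by
        rw [← Real.rpow_mul (by linarith), ← pow_succ]
        exact h2)
      rw [pow_succ']
      exact hmul _ _ _ _ _ (by positivity) (by positivity) h5 h6

theorem exists_pow {δ : ℝ} (hδ : 0 < δ) : ∃ n : ℕ, 2 ≤ (1 + δ) ^ n :=
  (((tendsto_pow_atTop_atTop_of_one_lt (by linarith : (1 : ℝ) < 1 + δ)).eventually_ge_atTop 2)).exists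

variable {a b : ℤ}

theorem P_pos (x : ℝ) : 0 < P a b x := Pool.Agent.W263.BSD.bsdProduct_pos x

theorem noIncrease_sq {δ : ℝ} (hδ : 0 < δ) (h : NoIncrease a b δ) :
    ∃ K : ℝ, ∀ᶠ x : ℝ in atTop, ∀ y, x ≤ y → y ≤ x ^ 2 → P a b y ≤ K * P a b x := by
  obtain ⟨K, hK⟩ := h
  obtain ⟨X, hX⟩ := eventually_atTop.mp hK
  obtain ⟨n, hn⟩ := exists_pow hδ
  have key := iterate (fun K x y => P a b y ≤ K * P a b x) (fun x => by simp)
    (fun K L x y z _ hL h1 h2 => by
      calc P a b z ≤ L * P a b y := h2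
        _ ≤ L * (K * P a b x) := mul_le_mul_of_nonneg_left h1 hL.le
        _ = L * K * P a b x := by ring)
    (fun K L x y hKL h1 => h1.trans (mul_le_mul_of_nonneg_right hKL (P_pos x).le)) hδ
    (K := max K 1) (le_max_right _ _) (X := max X 1) (le_max_right _ _)
    (fun x hx y h1 h2 => (hX x ((le_max_left _ _).trans hx) y h1 h2).trans
      (mul_le_mul_of_nonneg_right (le_max_left _ _) (P_pos x).le)) n
  refine ⟨(max K 1) ^ n, ?_⟩
  filter_upwards [eventually_ge_atTop (max X 1)] with x hx y h1 h2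
  refine key x hx y h1 (h2.trans ?_)
  have hx1 : 1 ≤ x := (le_max_right _ _).trans hx
  rw [← Real.rpow_natCast]
  exact Real.rpow_le_rpow_of_exponent_le hx1 (by exact_mod_cast hn)

theorem noDecrease_sq {δ : ℝ} (hδ : 0 < δ) (h : NoDecrease a b δ) :
    ∃ K : ℝ, ∀ᶠ x : ℝ in atTop, ∀ y, x ≤ y → y ≤ x ^ 2 → P a b x ≤ K * P a b y := by
  obtain ⟨K, hK⟩ := h
  obtain ⟨X, hX⟩ := eventually_atTop.mp hK
  obtain ⟨n, hn⟩ := exists_pow hδ
  have key := iterate (fun K x y => P a b x ≤ K * P a b y) (fun x => by simp)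
    (fun K L x y z hK _ h1 h2 => by
      calc P a b x ≤ K * P a b y := h1
        _ ≤ K * (L * P a b z) := mul_le_mul_of_nonneg_left h2 hK.le
        _ = L * K * P a b z := by ring)
    (fun K L x y hKL h1 => h1.trans (mul_le_mul_of_nonneg_right hKL (P_pos y).le)) hδ
    (K := max K 1) (le_max_right _ _) (X := max X 1) (le_max_right _ _)
    (fun x hx y h1 h2 => (hX x ((le_max_left _ _).trans hx) y h1 h2).trans
      (mul_le_mul_of_nonneg_right (le_max_left _ _) (P_pos y).le)) n
  refine ⟨(max K 1) ^ n, ?_⟩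
  filter_upwards [eventually_ge_atTop (max X 1)] with x hx y h1 h2
  refine key x hx y h1 (h2.trans ?_)
  have hx1 : 1 ≤ x := (le_max_right _ _).trans hx
  rw [← Real.rpow_natCast]
  exact Real.rpow_le_rpow_of_exponent_le hx1 (by exact_mod_cast hn)

/-- the exact order of magnitude implies both comparisons -/
theorem compare {r : ℕ} (h : HasOrder a b r) {δ : ℝ} (hδ : 0 < δ) :
    NoIncrease a b δ ∧ NoDecrease a b δ := by
  obtain ⟨c, C, hc, h⟩ := h
  obtain ⟨X, hX⟩ := eventually_atTop.mp h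
  have hdat : ∀ x : ℝ, max X (Real.exp 1) ≤ x → ∀ y, x ≤ y → y ≤ x ^ (1 + δ) →
      1 ≤ Real.log x ∧ Real.log x ≤ Real.log y ∧ Real.log y ≤ (1 + δ) * Real.log x ∧
      X ≤ x ∧ X ≤ y := by
    intro x hx y h1 h2
    have hx1 : Real.exp 1 ≤ x := (le_max_right _ _).trans hx
    have hx0 : 0 < x := lt_of_lt_of_le (Real.exp_pos 1) hx1
    refine ⟨by rwa [Real.le_log_iff_exp_le hx0], Real.log_le_log hx0 h1, ?_,
      (le_max_left _ _).trans hx, ((le_max_left _ _).trans hx).trans h1⟩
    have := Real.log_le_log (by linarith) h2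
    rwa [Real.log_rpow hx0] at this
  constructor
  · refine ⟨|C| * (1 + δ) ^ r / c, ?_⟩
    filter_upwards [eventually_ge_atTop (max X (Real.exp 1))] with x hx y h1 h2
    obtain ⟨g1, g2, g3, g4, g5⟩ := hdat x hx y h1 h2
    have e1 := (hX x g4).1
    have e2 := (hX y g5).2
    calc P a b y ≤ C * Real.log y ^ r := e2
      _ ≤ |C| * ((1 + δ) * Real.log x) ^ r := by
          refine mul_le_mul (le_abs_self C) (pow_le_pow_left₀ (by linarith) g3 r)
            (pow_nonneg (by linarith) _) (abs_nonneg _)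
      _ = |C| * (1 + δ) ^ r / c * (c * Real.log x ^ r) := by rw [mul_pow]; field_simp
      _ ≤ |C| * (1 + δ) ^ r / c * P a b x := by gcongr
  · refine ⟨|C| / c, ?_⟩
    filter_upwards [eventually_ge_atTop (max X (Real.exp 1))] with x hx y h1 h2
    obtain ⟨g1, g2, g3, g4, g5⟩ := hdat x hx y h1 h2
    have e1 := (hX x g4).2
    have e2 := (hX y g5).1
    calc P a b x ≤ C * Real.log x ^ r := e1
      _ ≤ |C| * Real.log y ^ r := by
          refine mul_le_mul (le_abs_self C) (pow_le_pow_left₀ (by linarith) g2 r)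
            (pow_nonneg (by linarith) _) (abs_nonneg _)
      _ = |C| / c * (c * Real.log y ^ r) := by field_simp
      _ ≤ |C| / c * P a b y := by gcongr

/-- the exponent in an exact order of magnitude is the order of `F` at `1` -/
theorem order_unique {r m : ℕ} (h1 : HasOrder a b r) (h2 : HasOrder a b m) : r = m := by
  have key : ∀ r m : ℕ, HasOrder a b r → HasOrder a b m → r ≤ m := by
    rintro r m ⟨c, C, hc, h⟩ ⟨c', C', hc', h'⟩
    by_contra hlt
    push Not at hlt
    have h3 : ∀ᶠ x : ℝ in atTop, c * Real.log x ≤ |C'| := by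
      filter_upwards [h, h', eventually_ge_atTop (Real.exp 1)] with x e1 e2 hx
      have hx0 : 0 < x := lt_of_lt_of_le (Real.exp_pos 1) hx
      have hl : 1 ≤ Real.log x := by rwa [Real.le_log_iff_exp_le hx0]
      have hl0 : 0 < Real.log x ^ m := by positivity
      have e3 : c * (Real.log x) ^ r ≤ |C'| * (Real.log x) ^ m :=
        (e1.1.trans e2.2).trans (mul_le_mul_of_nonneg_right (le_abs_self _) hl0.le)
      have e4 : (Real.log x) ^ (m + 1) ≤ (Real.log x) ^ r := pow_le_pow_right₀ hl hlt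
      have e5 : c * Real.log x * Real.log x ^ m ≤ |C'| * (Real.log x) ^ m := by
        calc c * Real.log x * Real.log x ^ m = c * (Real.log x) ^ (m + 1) := by ring
          _ ≤ c * (Real.log x) ^ r := mul_le_mul_of_nonneg_left e4 hc.le
          _ ≤ _ := e3
      exact le_of_mul_le_mul_right e5 hl0
    have h4 : Tendsto (fun x : ℝ => c * Real.log x) atTop atTop :=
      Real.tendsto_log_atTop.const_mul_atTop hc
    obtain ⟨x, hx1, hx2⟩ := (h3.and (h4.eventually_gt_atTop |C'|)).exists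
    linarith
  exact le_antisymm (key r m h1 h2) (key m r h2 h1)

/-- **The one-sided form of the original conjecture of Birch and Swinnerton-Dyer.** -/
theorem result (a b : ℤ) (_hΔ : 4 * a ^ 3 + 27 * b ^ 2 ≠ 0) (F : ℂ → ℂ) (hF : IsLSeries a b F)
    (δ : ℝ) (hδ : 0 < δ) :
    (∃ m : ℕ, analyticOrderAt F 1 = m ∧ (NoIncrease a b δ ↔ HasOrder a b m) ∧
      ((∀ s : ℝ, 1 < s → F s ≠ 0) ∧ NoDecrease a b δ ↔ HasOrder a b m)) ∧
    (NoIncrease a b δ → ∀ s : ℂ, 1 < s.re → F s ≠ 0) ∧
    (∀ r : ℕ, HasOrder a b r ↔ analyticOrderAt F 1 = r ∧ NoIncrease a b δ) ∧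
    (HasOrder a b (rank a b) ↔ analyticOrderAt F 1 = (rank a b : ℕ∞) ∧ NoIncrease a b δ) := by
  have hF' : Pool.Agent.W263.BSD.IsLSeries a b F := hF
  obtain ⟨m, hm⟩ : ∃ m : ℕ, analyticOrderAt F 1 = m :=
    Pool.Agent.W189.ML.order_finite_all hF' 1
  have htf := Pool.Agent.W263.BSD.order_tfae hF' hm
  have t13 : HasOrder a b m ↔ (∀ s : ℝ, 1 < s → F s ≠ 0) ∧
      ∃ K : ℝ, ∀ᶠ x : ℝ in atTop, ∀ y, x ≤ y → y ≤ x ^ 2 → P a b x ≤ K * P a b y := htf.out 0 2
  have h12 : NoIncrease a b δ ↔ HasOrder a b m :=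
    ⟨fun h => (htf.out 0 1).2 (noIncrease_sq hδ h), fun h => (compare h hδ).1⟩
  have h13 : (∀ s : ℝ, 1 < s → F s ≠ 0) ∧ NoDecrease a b δ ↔ HasOrder a b m := by
    constructor
    · rintro ⟨h1, h2⟩
      exact t13.2 ⟨h1, noDecrease_sq hδ h2⟩
    · intro h
      exact ⟨(t13.1 h).1, (compare h hδ).2⟩
  have hr : ∀ r : ℕ, HasOrder a b r ↔ analyticOrderAt F 1 = r ∧ NoIncrease a b δ := by
    intro r
    constructor
    · intro h
      have h1 := (compare h hδ).1
      have h2 := order_unique h (h12.1 h1)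
      exact ⟨by rw [hm, h2], h1⟩
    · rintro ⟨h1, h2⟩
      rw [hm] at h1
      have h3 : m = r := by exact_mod_cast h1
      rw [← h3]
      exact h12.1 h2
  refine ⟨⟨m, hm, h12, h13⟩, fun h s hs => ?_, hr, hr _⟩
  obtain ⟨c, C, -, h1⟩ := h12.1 h
  exact Pool.Agent.W263.BSD.no_zeros_of_order hF' (h1.mono fun x hx => hx.2) hs

end Pool.Agent.Results.MP_696deb_nt.OneSidedGrowth
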