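import Pool.Agent.TH942.OS.Curve
import Pool.Agent.TH942.Ner
import Pool.Agent.TH942.RZ.Curve
import Pool.Agent.TH270.MS.EQ3
import Pool.Agent.TH270.MS.GrowthF
import Pool.Agent.TH941.Newform

/-!
# Every truncated numerical form of the conjecture of Birch and Swinnerton-Dyer

Let `C : y² = x³ + a x + b` be an elliptic curve over `ℚ`, `a, b ∈ ℤ`, let `F` be the entire continuation
of its incomplete `L`-series, `N_p` the number of affine points modulo `p ∤ 2Δ`, and for a function `w` on the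
line

`S_w(X) = ∑_{p ∤ 2Δ} w(log p / log X) log ((N_p + 1)/p)`.

For `w = 1` on `(0, 1]`, `w = 0` on `(1, ∞)` this is the logarithm of the original product of Birch and
Swinnerton-Dyer, and Goldfeld (1982) proved that `S_w(X) = r log log X + c + o(1)` implies that `F` has no zeros
with `Re s > 1` and order `r` at `s = 1`. Here `w` is an ARBITRARY truncated weight, with the top `β` of its support,
so that only the primes `p ≤ X^β` are used: a bounded measurable function which satisfies Dini's condition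
`∫₀^β |w(u) - 1| du/u < ∞`. It is shown, for every curve and every such `w`:

* a zero `s` of `F` with `Re s > 1` makes `|S_w(X)| > C X^α` for arbitrarily large `X`, for all `C` and all
  `α < β (Re s - 1)`;
* if `S_w(X) / log log X` has a limit `ρ`, then `F` has no zeros with `Re s > 1` and `ρ = ord_{s=1} F`.

If moreover `w ≥ 0`, one-sided bounds are enough:

* a zero `s` of `F` with `Re s > 1` makes `S_w(X) > C X^α` for arbitrarily large `X`;
* if `limsup S_w(X) / log log X ≤ ρ`, then `F` has no zeros with `Re s > 1`, and `ord_{s=1} F ≤ ρ`.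

Conversely, let `w(u) = ∫_u^β g` with a square integrable `g`, `∫ g = 1`, or `w(u) = (1 - u)^k`, `β = 1`, `k > 0`. If
`F` has no zeros with `Re s > 1`, then `S_w(X) = m log log X + κ + o(1)`, `m = ord_{s=1} F`, with the constant
`exp κ = √2 e^{mc} m! / F^{(m)}(1)`, `c = γ + ∫ g(t) log t dt` or `c = -ψ(k + 1)`. Hence for these weights, if
`w ≥ 0`, and with the number `R(X)` of the rational points of `C` of height `≤ X`, the following are EQUIVALENT:

* `ord_{s=1} F = rank C(ℚ)`, and `F` has no zeros with `Re s > 1`;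
* `limsup S_w(X) / log log X = rank C(ℚ)`;
* `S_w(X) - 2 log R(X)` is bounded (or: has a limit),

and the following are equivalent, too:

* `ord_{s=1} F ≤ rank C(ℚ)`, and `F` has no zeros with `Re s > 1`;
* `S_w(X) ≤ 2 log R(X) + O(1)` (or: `≤ 2 log R(X) + o(log log X)`).

So the rank form together with the absence of zeros in `Re s > 1` is a comparison of the numbers of the points modulo
the primes `p ≤ X^β` with the number of the rational points of height `≤ X`, for one (or for every) truncated weight,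
and no truncated weight gives a numerical form of the rank form alone, if `F` has zeros with `Re s > 1`.

Proof. The Laplace transform of `T ↦ S_w(e^T)` is a multiplicative convolution of `w` and the logarithmic
derivative of `F`; near an outermost zero on a ray it is a Cauchy transform of `w` on a segment, and it is
holomorphic there only if `w = 0` almost everywhere near `β`. For one-sided bounds Landau's theorem is used for the
difference of `S_w` and the contribution of a real zero. The growth constant is found with Abelian theorems on the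
positive real axis. The converse uses the mean square of the deviation of the original product and the Riesz means
(the growth of `F` is proved from the newform), and the number of rational points is estimated with Néron's
canonical height. The tools are in `Pool.Agent.TH942.LS`, `OS`, `RZ`, `Ner` and `Pool.Agent.TH270.MS`.
-/

set_option autoImplicit false

namespace Pool.Agent.Results.MP_696deb_nt.TruncatedWeights

open Filter Topology Classical MeasureTheory Set CongruenceSubgroup UpperHalfPlane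
open scoped MatrixGroups

/-- `N_p`: the number of pairs `(x, y) ∈ (ℤ/p)²` with `y² = x³ + a x + b`. -/
noncomputable def N (a b : ℤ) (p : ℕ) : ℕ :=
  Nat.card {q : ZMod p × ZMod p // q.2 ^ 2 = q.1 ^ 3 + (a : ZMod p) * q.1 + (b : ZMod p)}

/-- `p` is a prime not dividing `2Δ`, `Δ = -4 a³ - 27 b²`. -/
def Good (a b : ℤ) (p : ℕ) : Prop :=
  p.Prime ∧ ¬ ((p : ℤ) ∣ 2 * (-4 * a ^ 3 - 27 * b ^ 2))

/-- `F` is entire and for `Re s > 3/2` it is the incomplete `L`-series
`∏_{p ∤ 2Δ} (1 - a_p p^{-s} + p^{1-2s})⁻¹`, `a_p = p - N_p`, of `y² = x³ + a x + b`. -/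
def IsLSeries (a b : ℤ) (F : ℂ → ℂ) : Prop :=
  Differentiable ℂ F ∧ ∀ s : ℂ, (3 : ℝ) / 2 < s.re →
    HasProd (fun p : ℕ => if Good a b p then
      (1 - ((p : ℂ) - (N a b p : ℂ)) * (p : ℂ) ^ (-s) + (p : ℂ) ^ (1 - 2 * s))⁻¹ else 1) (F s)

/-- The rank of the group of rational points of `y² = x³ + a x + b`. -/
noncomputable def rank (a b : ℤ) : ℕ :=
  Module.finrank ℤ
    (WeierstrassCurve.Affine.Point
      (WeierstrassCurve.toAffine
        ({ a₁ := 0, a₂ := 0, a₃ := 0, a₄ := (a : ℚ), a₆ := (b : ℚ) } : WeierstrassCurve ℚ)))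

/-- The number of rational points of `y² = x³ + a x + b` of height at most `X`: the point at infinity
and the points `(x, y)` with `x = u / v` in lowest terms, `max (|u|, v) ≤ X`. -/
noncomputable def numPoints (a b : ℤ) (X : ℝ) : ℕ :=
  Nat.card {P : ℚ × ℚ // P.2 ^ 2 = P.1 ^ 3 + a * P.1 + b ∧
    (max P.1.num.natAbs P.1.den : ℝ) ≤ X} + 1

/-- `F` has no zeros with `Re s > 1`. -/
def NoZeros (F : ℂ → ℂ) : Prop := ∀ s : ℂ, 1 < s.re → F s ≠ 0

/-- A truncated weight: a bounded measurable function on the line which vanishes to the right of `β`, but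
not almost everywhere on an interval `(κ, β)`, `κ < β`, and tends to `1` at `0` in the weak sense of
Dini: `∫₀^β |w(u) - 1| du/u < ∞`. It may change sign. -/
structure Weight (w : ℝ → ℝ) (β : ℝ) : Prop where
  meas : Measurable w
  bdd : ∃ W, ∀ u, |w u| ≤ W
  pos : 0 < β
  supp : ∀ u, β < u → w u = 0
  top : ∀ κ, κ < β → ¬ ∀ᵐ u : ℝ, u ∈ Ioo κ β → w u = 0
  dini : IntegrableOn (fun u : ℝ => |w u - 1| / u) (Ioo 0 β)

/-- The sum `∑ w(log p / log X) log ((N_p + 1)/p)` over the primes `p ≤ X^β`, `p ∤ 2Δ`: the logarithm of the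
product of the `(N_p + 1)/p` with the exponents `w(log p / log X)`. -/
noncomputable def S (a b : ℤ) (w : ℝ → ℝ) (β X : ℝ) : ℝ :=
  ∑ p ∈ (Finset.range (⌊X ^ β⌋₊ + 1)).filter (Good a b),
    w (Real.log p / Real.log X) * Real.log (((N a b p : ℝ) + 1) / p)

/-- `∫_u^β g` -/
noncomputable def tailInt (g : ℝ → ℝ) (β u : ℝ) : ℝ := ∫ t in Ioo (max u 0) β, g t

/-- `(1 - u)^k` for `0 < u ≤ 1`, and `0` otherwise -/
noncomputable def riesz (k : ℝ) : ℝ → ℝ := (Ioc (0 : ℝ) 1).indicator fun u => (1 - u) ^ k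

/-- `w` is of the form `w(u) = ∫_u^β g(t) dt` with `g` square integrable on `(0, β)`, `∫ g = 1`, and
`c = γ + ∫ g(t) log t dt`, or `β = 1`, `w(u) = (1 - u)^k`, `k > 0`, and `c = -ψ(k + 1)`. -/
inductive Regular : (ℝ → ℝ) → ℝ → ℝ → Prop
  | sobolev (g : ℝ → ℝ) (β : ℝ) (hβ : 0 < β) (hg : Measurable g)
      (h2 : IntegrableOn (fun t => g t ^ 2) (Ioo 0 β)) (h1 : ∫ t in Ioo 0 β, g t = 1) :
      Regular (tailInt g β) β
        (Real.eulerMascheroniConstant + ∫ t in Ioo 0 β, g t * Real.log t)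
  | riesz (k : ℝ) (hk : 0 < k) : Regular (riesz k) 1 (-(deriv Real.Gamma (k + 1) / Real.Gamma (k + 1)))

variable {a b : ℤ} {F : ℂ → ℂ}

section library

open Pool.Agent.W263.BSD Pool.Agent.W189.ML
open Pool.Agent.TH942.LS (lm cE dat cont Wt)

theorem weight_wt {w : ℝ → ℝ} {β : ℝ} (hw : Weight w β) : ∃ W, Wt w W β := by
  obtain ⟨W, hW⟩ := hw.bdd
  exact ⟨W, hw.meas, hW, hw.pos, hw.supp⟩

theorem S_eq {w : ℝ → ℝ} {β : ℝ} (hw : Weight w β) {X : ℝ} (hX : 1 < X) :
    S a b w β X = Pool.Agent.TH942.LS.S lm (cE a b) w (Real.log X) := by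
  obtain ⟨W, hW⟩ := weight_wt hw
  exact (Pool.Agent.TH942.LS.S_finite (a := a) (b := b) w hW hX).symm

theorem noZeros_of_phi (h : ∀ s : ℂ, 0 < s.re → PhiF a b F s ≠ 0) : NoZeros F := by
  intro s hs h0
  refine h (s - 1) (by simpa using hs) ?_
  unfold PhiF
  rw [add_sub_cancel, h0, zero_mul]

theorem phi_of_noZeros (h : NoZeros F) : ∀ s : ℂ, 0 < s.re → PhiF a b F s ≠ 0 := by
  intro s hs
  unfold PhiF
  exact mul_ne_zero (h _ (by simpa using hs)) (Pool.Agent.TH942.SL.small_ne hs)

/-- zeros force large sums -/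
theorem omega_two {w : ℝ → ℝ} {β : ℝ} (hw : Weight w β) (hF : IsLSeries a b F) {s : ℂ}
    (hs : 1 < s.re) (h0 : F s = 0) {α : ℝ} (C : ℝ) (hα : α < β * (s.re - 1)) :
    ∃ᶠ X : ℝ in atTop, C * X ^ α < |S a b w β X| := by
  obtain ⟨W, hW⟩ := weight_wt hw
  intro hne
  refine Pool.Agent.TH942.LS.omega (a := a) (b := b) hF hW hw.top hs h0 (C := C) hα ?_
  filter_upwards [hne] with X hX
  exact not_lt.1 hX

/-- the constant of logarithmic growth, two-sided -/
theorem limit_two {w : ℝ → ℝ} {β : ℝ} (hw : Weight w β) (hF : IsLSeries a b F) {m : ℕ}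
    (hm : analyticOrderAt F 1 = m) {ρ : ℝ}
    (h : Tendsto (fun X : ℝ => S a b w β X / Real.log (Real.log X)) atTop (𝓝 ρ)) :
    NoZeros F ∧ ρ = m := by
  obtain ⟨W, hW⟩ := weight_wt hw
  have hnz : NoZeros F := by
    intro s hs h0
    have hβ := hw.pos
    have hα : 0 < β * (s.re - 1) / 2 := by
      have : 0 < β * (s.re - 1) := mul_pos hβ (by linarith)
      linarith
    refine omega_two hw hF hs h0 (α := β * (s.re - 1) / 2) 1 (by linarith) ?_
    have h1 : ∀ᶠ X in atTop, |S a b w β X / Real.log (Real.log X)| < |ρ| + 1 :=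
      h.abs.eventually (gt_mem_nhds (lt_add_one _))
    have h2 : Tendsto (fun X : ℝ => Real.log X / X ^ (β * (s.re - 1) / 2)) atTop (𝓝 0) :=
      (isLittleO_log_rpow_atTop hα).tendsto_div_nhds_zero
    have h3 : ∀ᶠ X : ℝ in atTop, Real.log X / X ^ (β * (s.re - 1) / 2) < 1 / (|ρ| + 1) :=
      h2.eventually (gt_mem_nhds (by positivity))
    filter_upwards [h1, h3, eventually_gt_atTop (Real.exp (Real.exp 1))] with X e1 e2 e3
    rw [not_lt, one_mul]
    have hX0 : 0 < X := (Real.exp_pos _).trans e3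
    have hl : Real.exp 1 < Real.log X := by
      rw [Real.lt_log_iff_exp_lt hX0]
      exact e3
    have hl0 : 0 < Real.log X := (Real.exp_pos 1).trans hl
    have hll : 1 < Real.log (Real.log X) := by
      rw [Real.lt_log_iff_exp_lt hl0]
      exact hl
    rw [abs_div, abs_of_pos (by linarith : 0 < Real.log (Real.log X)),
      div_lt_iff₀ (by linarith)] at e1
    have e4 : Real.log (Real.log X) ≤ Real.log X := by
      have := Real.log_le_sub_one_of_pos hl0
      linarith
    have hp : 0 < X ^ (β * (s.re - 1) / 2) := Real.rpow_pos_of_pos hX0 _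
    rw [div_lt_div_iff₀ hp (by positivity), one_mul] at e2
    calc |S a b w β X| ≤ (|ρ| + 1) * Real.log (Real.log X) := e1.le
      _ ≤ (|ρ| + 1) * Real.log X := mul_le_mul_of_nonneg_left e4 (by positivity)
      _ = Real.log X * (|ρ| + 1) := mul_comm _ _
      _ ≤ _ := e2.le
  refine ⟨hnz, ?_⟩
  refine Pool.Agent.TH942.LS.growth_eq_order (a := a) (b := b) hF (phi_of_noZeros hnz) hm hW hw.dini ?_
  refine (h.comp Real.tendsto_exp_atTop).congr' ?_
  filter_upwards [eventually_gt_atTop 0] with T hT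
  simp only [Function.comp_apply]
  rw [S_eq hw (Real.one_lt_exp_iff.2 hT), Real.log_exp]

/-- zeros force large positive sums, nonnegative weights -/
theorem omega_one {w : ℝ → ℝ} {β : ℝ} (hw : Weight w β) (hw0 : ∀ u, 0 ≤ w u)
    (hF : IsLSeries a b F) {s : ℂ} (hs : 1 < s.re) (h0 : F s = 0) {α : ℝ} (C : ℝ)
    (hα : α < β * (s.re - 1)) : ∃ᶠ X : ℝ in atTop, C * X ^ α < S a b w β X := by
  obtain ⟨W, hW⟩ := weight_wt hw
  have hβ := hw.pos
  intro hne
  set θ : ℝ := max 0 (α / β) with hθ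
  have hθ0 : 0 ≤ θ := le_max_left _ _
  have hθ1 : α ≤ β * θ := by
    have : α / β ≤ θ := le_max_right _ _
    rw [div_le_iff₀ hβ] at this
    linarith
  have hθ2 : θ < s.re - 1 := by
    refine max_lt (by linarith) ?_
    rw [div_lt_iff₀ hβ]
    linarith
  have hF' : Pool.Agent.W263.BSD.IsLSeries a b F := hF
  have hU : ∀ α', β * θ < α' → ∃ C' T₀ : ℝ, ∀ T, T₀ ≤ T →
      Pool.Agent.TH942.LS.S lm (cE a b) w T ≤ C' * Real.exp (α' * T) := by
    intro α' hα'
    obtain ⟨X₀, hX₀⟩ := hne.exists_forall_of_atTop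
    refine ⟨|C|, max 1 (Real.log (max X₀ 1)), fun T hT => ?_⟩
    have hT1 : 1 ≤ T := (le_max_left _ _).trans hT
    have hT2 : Real.log (max X₀ 1) ≤ T := (le_max_right _ _).trans hT
    have hmx : 0 < max X₀ 1 := lt_max_of_lt_right one_pos
    have h1 : X₀ ≤ Real.exp T := by
      rw [Real.log_le_iff_le_exp hmx] at hT2
      exact (le_max_left _ _).trans hT2
    have h2 := not_lt.1 (hX₀ _ h1)
    have h3 : 1 < Real.exp T := Real.one_lt_exp_iff.2 (by linarith)
    rw [S_eq hw h3, Real.log_exp, ← Real.exp_mul] at h2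
    refine h2.trans ?_
    have h5 : Real.exp (T * α) ≤ Real.exp (α' * T) := Real.exp_le_exp.2 (by nlinarith)
    calc C * Real.exp (T * α) ≤ |C| * Real.exp (T * α) := by
          gcongr
          exact le_abs_self C
      _ ≤ _ := by gcongr
  obtain ⟨-, h2⟩ := Pool.Agent.TH942.OS.upper (dat a b) hW hw0 (cont hF' hθ0) hw.top hU
  refine h2 (s - 1) (by simpa using hθ2) ?_
  unfold PhiF
  rw [add_sub_cancel, h0, zero_mul]

/-- one-sided logarithmic growth -/
theorem limit_one {w : ℝ → ℝ} {β : ℝ} (hw : Weight w β) (hw0 : ∀ u, 0 ≤ w u)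
    (hF : IsLSeries a b F) {m : ℕ} (hm : analyticOrderAt F 1 = m) {ρ : ℝ}
    (h : ∀ ε : ℝ, 0 < ε → ∀ᶠ X : ℝ in atTop, S a b w β X ≤ (ρ + ε) * Real.log (Real.log X)) :
    NoZeros F ∧ (m : ℝ) ≤ ρ := by
  obtain ⟨W, hW⟩ := weight_wt hw
  obtain ⟨h1, h2⟩ := Pool.Agent.TH942.OS.order_le (a := a) (b := b) hF hm hW hw0 hw.top hw.dini
    (ρ := ρ) fun ε hε => by
      filter_upwards [Real.tendsto_exp_atTop.eventually (h ε hε), eventually_gt_atTop 0] with T h1 hT
      rwa [S_eq hw (Real.one_lt_exp_iff.2 hT), Real.log_exp] at h1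
  exact ⟨noZeros_of_phi h1, h2⟩

end library


section forward

open Pool.Agent.W263.BSD Pool.Agent.W189.ML
open Pool.Agent.TH270.MS.EQ (dev dev_eq)

/-- the coefficients -/
noncomputable def ll (a b : ℤ) (p : ℕ) : ℝ := Real.log (((pointCount a b p : ℝ) + 1) / p)

theorem log_product (x : ℝ) : Real.log (bsdProduct a b x) =
    ∑ p ∈ (Finset.range (⌊x⌋₊ + 1)).filter (GoodPrime a b), ll a b p := by
  unfold bsdProduct
  rw [Real.log_prod]
  · rfl
  · intro q hq
    have hq0 : (0 : ℝ) < q := by exact_mod_cast (Finset.mem_filter.1 hq).2.1.pos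
    positivity

theorem log_product_meas : Measurable fun v : ℝ => Real.log (bsdProduct a b (Real.exp v)) := by
  set h : ℕ → ℝ := fun n => Real.log (∏ p ∈ (Finset.range (n + 1)).filter (GoodPrime a b),
    (((pointCount a b p : ℝ) + 1) / p)) with hh
  have h1 : Measurable h := measurable_from_nat
  exact h1.comp (Nat.measurable_floor.comp Real.measurable_exp)

theorem log_product_bd (V : ℝ) : ∃ M : ℝ, ∀ v : ℝ, v ≤ V →
    |Real.log (bsdProduct a b (Real.exp v))| ≤ M := by
  refine ⟨∑ p ∈ Finset.range (⌊Real.exp V⌋₊ + 1), |ll a b p|, fun v hv => ?_⟩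
  rw [log_product]
  refine (Finset.abs_sum_le_sum_abs _ _).trans ?_
  refine Finset.sum_le_sum_of_subset_of_nonneg ?_ fun _ _ _ => abs_nonneg _
  refine (Finset.filter_subset _ _).trans (Finset.range_mono ?_)
  exact Nat.add_le_add_right (Nat.floor_le_floor (Real.exp_le_exp.2 hv)) 1

theorem good_three {p : ℕ} (h : GoodPrime a b p) : 3 ≤ p := by
  have h2 := h.1.two_le
  rcases Nat.lt_or_ge p 3 with h3 | h3
  · have : p = 2 := by omega
    subst this
    exact absurd (Dvd.intro _ rfl) h.2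
  · exact h3

theorem log_product_small {v : ℝ} (hv : v ≤ 1) : Real.log (bsdProduct a b (Real.exp v)) = 0 := by
  rw [log_product]
  refine Finset.sum_eq_zero fun p hp => ?_
  exfalso
  obtain ⟨h1, h2⟩ := Finset.mem_filter.1 hp
  have h3 := good_three h2
  rw [Finset.mem_range, Nat.lt_succ_iff] at h1
  have h4 : (p : ℝ) ≤ Real.exp v := (Nat.le_floor_iff (Real.exp_pos v).le).1 h1
  have h5 : Real.exp v ≤ Real.exp 1 := Real.exp_le_exp.2 hv
  have h6 := Real.exp_one_lt_d9
  have h7 : (3 : ℝ) ≤ p := by exact_mod_cast h3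
  linarith

/-- the deviation in the variable `v = log x` -/
noncomputable def ee (a b : ℤ) (m : ℕ) (C v : ℝ) : ℝ :=
  Real.log (bsdProduct a b (Real.exp v)) - m * Real.log v - Real.log C

theorem ee_meas (m : ℕ) (C : ℝ) : Measurable (ee a b m C) :=
  (log_product_meas.sub (Real.measurable_log.const_mul _)).sub_const _

theorem sq_log_le {v : ℝ} (h0 : 0 < v) (h1 : v ≤ 1) : Real.log v ^ 2 ≤ 16 * v ^ (-(1 / 2) : ℝ) := by
  have h2 := Real.abs_log_mul_self_rpow_lt v (1 / 4) h0 h1 (by norm_num)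
  rw [abs_mul, abs_of_pos (Real.rpow_pos_of_pos h0 _)] at h2
  have h3 : 0 < v ^ (1 / 4 : ℝ) := Real.rpow_pos_of_pos h0 _
  have h4 : |Real.log v| ≤ 4 * v ^ (-(1 / 4) : ℝ) := by
    rw [Real.rpow_neg h0.le, ← div_eq_mul_inv, le_div_iff₀ h3]
    have : (1 : ℝ) / (1 / 4) = 4 := by norm_num
    linarith
  have h5 : (v ^ (-(1 / 4) : ℝ)) ^ 2 = v ^ (-(1 / 2) : ℝ) := by
    rw [← Real.rpow_natCast, ← Real.rpow_mul h0.le]
    norm_num
  calc Real.log v ^ 2 = |Real.log v| ^ 2 := (sq_abs _).symm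
    _ ≤ (4 * v ^ (-(1 / 4) : ℝ)) ^ 2 := pow_le_pow_left₀ (abs_nonneg _) h4 2
    _ = _ := by rw [mul_pow, h5]; norm_num

theorem log_sq_int (V : ℝ) : IntegrableOn (fun v : ℝ => Real.log v ^ 2) (Ioc 0 V) := by
  have h1 : IntegrableOn (fun v : ℝ => Real.log v ^ 2) (Ioc 0 1) := by
    have h2 : IntegrableOn (fun v : ℝ => 16 * v ^ (-(1 / 2) : ℝ)) (Ioc 0 1) := by
      have := (intervalIntegral.intervalIntegrable_rpow' (a := 0) (b := 1) (r := -(1 / 2))
        (by norm_num)).const_mul 16
      rwa [intervalIntegrable_iff_integrableOn_Ioc_of_le zero_le_one] at this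
    refine Integrable.mono' h2 ((Real.measurable_log.pow_const 2).aestronglyMeasurable) ?_
    filter_upwards [ae_restrict_mem measurableSet_Ioc] with v hv
    rw [Real.norm_eq_abs, abs_of_nonneg (sq_nonneg _)]
    exact sq_log_le hv.1 hv.2
  rcases le_total V 1 with hV | hV
  · exact h1.mono_set (Ioc_subset_Ioc_right hV)
  · rw [← Ioc_union_Ioc_eq_Ioc zero_le_one hV]
    refine h1.union ?_
    refine Measure.integrableOn_of_bounded (M := Real.log V ^ 2) (by simp)
      ((Real.measurable_log.pow_const 2).aestronglyMeasurable) ?_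
    filter_upwards [ae_restrict_mem measurableSet_Ioc] with v hv
    rw [Real.norm_eq_abs, abs_of_nonneg (sq_nonneg _)]
    exact pow_le_pow_left₀ (Real.log_nonneg hv.1.le) (Real.log_le_log (by linarith [hv.1]) hv.2) 2

theorem ee_sq_int (m : ℕ) (C V : ℝ) : IntegrableOn (fun v : ℝ => ee a b m C v ^ 2) (Ioc 0 V) := by
  obtain ⟨M, hM⟩ := log_product_bd (a := a) (b := b) V
  have h1 : IntegrableOn (fun v : ℝ => 3 * M ^ 2 + 3 * m ^ 2 * Real.log v ^ 2 + 3 * Real.log C ^ 2)
      (Ioc 0 V) := by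
    exact (continuous_const.integrableOn_Ioc.add ((log_sq_int V).const_mul _)).add
      continuous_const.integrableOn_Ioc
  refine Integrable.mono' h1 (((ee_meas m C).pow_const 2).aestronglyMeasurable) ?_
  filter_upwards [ae_restrict_mem measurableSet_Ioc] with v hv
  rw [Real.norm_eq_abs, abs_of_nonneg (sq_nonneg _)]
  have h2 := hM v hv.2
  have h3 : Real.log (bsdProduct a b (Real.exp v)) ^ 2 ≤ M ^ 2 := by
    rw [← sq_abs]
    exact pow_le_pow_left₀ (abs_nonneg _) h2 2
  unfold ee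
  set x := Real.log (bsdProduct a b (Real.exp v))
  set y := (m : ℝ) * Real.log v with hy
  set z := Real.log C
  have h4 : (x - y - z) ^ 2 ≤ 3 * x ^ 2 + 3 * y ^ 2 + 3 * z ^ 2 := by
    nlinarith [sq_nonneg (x + y), sq_nonneg (x + z), sq_nonneg (y - z)]
  have h5 : 3 * y ^ 2 = 3 * m ^ 2 * Real.log v ^ 2 := by rw [hy]; ring
  linarith

/-- the mean square of the deviation -/
theorem ee_mean {m : ℕ} {C : ℝ} (hC : 0 < C)
    (h : Tendsto (fun X : ℝ => (∫ x in Real.exp 1..X, dev a b m C x ^ 2 / x) / Real.log X) atTop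
      (𝓝 0)) : Tendsto (fun V : ℝ => (∫ v in (0 : ℝ)..V, ee a b m C v ^ 2) / V) atTop (𝓝 0) := by
  have h1 : Tendsto (fun V : ℝ => (∫ v in (1 : ℝ)..V, ee a b m C v ^ 2) / V) atTop (𝓝 0) := by
    refine (h.comp Real.tendsto_exp_atTop).congr' ?_
    filter_upwards [eventually_ge_atTop 1] with V hV
    simp only [Function.comp_apply]
    rw [Real.log_exp, ← Pool.Agent.TH270.MS.cov_ii _ hV]
    congr 1
    refine intervalIntegral.integral_congr fun x hx => ?_
    rw [uIcc_of_le (Real.exp_le_exp.2 hV)] at hx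
    have h0 : 0 < x := (Real.exp_pos 1).trans_le hx.1
    rw [dev_eq hC hx.1]
    unfold ee
    rw [Real.exp_log h0]
  have h2 : Tendsto (fun V : ℝ => (∫ v in (0 : ℝ)..1, ee a b m C v ^ 2) / V) atTop (𝓝 0) :=
    tendsto_const_nhds.div_atTop tendsto_id
  have h3 := h2.add h1
  rw [add_zero] at h3
  refine h3.congr' ?_
  filter_upwards [eventually_ge_atTop 1] with V hV
  have h4 : IntervalIntegrable (fun v : ℝ => ee a b m C v ^ 2) volume 0 V := by
    rw [intervalIntegrable_iff_integrableOn_Ioc_of_le (by linarith)]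
    exact ee_sq_int m C V
  rw [← add_div, intervalIntegral.integral_add_adjacent_intervals]
  · exact h4.mono_set (by rw [uIcc_of_le zero_le_one, uIcc_of_le (by linarith)]
                          exact Icc_subset_Icc_right hV)
  · exact h4.mono_set (by rw [uIcc_of_le hV, uIcc_of_le (by linarith)]
                          exact Icc_subset_Icc_left zero_le_one)

/-- a weighted mean of the deviation -/
theorem ee_weighted {m : ℕ} {C : ℝ} {g : ℝ → ℝ} {β : ℝ} (hβ : 0 < β)
    (h2 : IntegrableOn (fun t => g t ^ 2) (Ioo 0 β))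
    (h : Tendsto (fun V : ℝ => (∫ v in (0 : ℝ)..V, ee a b m C v ^ 2) / V) atTop (𝓝 0)) :
    Tendsto (fun T : ℝ => ∫ t in Ioo 0 β, g t * ee a b m C (t * T)) atTop (𝓝 0) := by
  set G : ℝ := ∫ t in Ioo 0 β, g t ^ 2 with hG
  have hG0 : 0 ≤ G := integral_nonneg fun t => sq_nonneg _
  -- the scaled integral
  have hs : ∀ T : ℝ, 0 < T → IntegrableOn (fun t => ee a b m C (t * T) ^ 2) (Ioo 0 β) ∧
      ∫ t in Ioo 0 β, ee a b m C (t * T) ^ 2 = β * ((∫ v in (0 : ℝ)..(β * T),
        ee a b m C v ^ 2) / (β * T)) := by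
    intro T hT
    have e1 : IntervalIntegrable (fun v : ℝ => ee a b m C v ^ 2) volume (0 * T) (β * T) := by
      rw [zero_mul, intervalIntegrable_iff_integrableOn_Ioc_of_le (by positivity)]
      exact ee_sq_int m C _
    have e2 : IntervalIntegrable (fun t : ℝ => ee a b m C (t * T) ^ 2) volume 0 β := by
      have := e1.comp_mul_right (c := T)
      simpa [hT.ne'] using this
    constructor
    · rw [intervalIntegrable_iff_integrableOn_Ioc_of_le hβ.le] at e2
      exact e2.mono_set Ioo_subset_Ioc_self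
    · rw [← integral_Ioc_eq_integral_Ioo, ← intervalIntegral.integral_of_le hβ.le,
        intervalIntegral.integral_comp_mul_right (fun v => ee a b m C v ^ 2) hT.ne', zero_mul,
        smul_eq_mul]
      field_simp
  rw [Metric.tendsto_nhds]
  intro ε hε
  set η : ℝ := ε / (G + 1) with hη
  have hη0 : 0 < η := by positivity
  have h3 : Tendsto (fun T : ℝ => β * ((∫ v in (0 : ℝ)..(β * T), ee a b m C v ^ 2) / (β * T))) atTop
      (𝓝 0) := by
    have := (h.comp (tendsto_id.const_mul_atTop hβ)).const_mul β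
    rwa [mul_zero] at this
  have h4 : ∀ᶠ T : ℝ in atTop, β * ((∫ v in (0 : ℝ)..(β * T), ee a b m C v ^ 2) / (β * T)) <
      η * ε := h3.eventually (gt_mem_nhds (by positivity))
  filter_upwards [h4, eventually_gt_atTop 0] with T e1 hT
  obtain ⟨e2, e3⟩ := hs T hT
  rw [← e3] at e1
  rw [Real.dist_eq, sub_zero]
  have e4 : |∫ t in Ioo 0 β, g t * ee a b m C (t * T)| ≤
      ∫ t in Ioo 0 β, (η / 2 * g t ^ 2 + 1 / (2 * η) * ee a b m C (t * T) ^ 2) := by
    rw [← Real.norm_eq_abs]
    refine norm_integral_le_of_norm_le ((h2.const_mul _).add (e2.const_mul _)) ?_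
    refine ae_of_all _ fun t => ?_
    rw [Real.norm_eq_abs, abs_mul]
    set x := |g t| with hx
    set y := |ee a b m C (t * T)| with hy
    have f1 : g t ^ 2 = x ^ 2 := (sq_abs _).symm
    have f2 : ee a b m C (t * T) ^ 2 = y ^ 2 := (sq_abs _).symm
    rw [f1, f2]
    have f3 : 0 ≤ (η * x - y) ^ 2 / (2 * η) := by positivity
    have f4 : (η * x - y) ^ 2 / (2 * η) = η / 2 * x ^ 2 + 1 / (2 * η) * y ^ 2 - x * y := by
      field_simp
      ring
    linarith
  rw [integral_add (h2.const_mul _) (e2.const_mul _), integral_const_mul, integral_const_mul] at e4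
  have e5 : 1 / (2 * η) * ∫ t in Ioo 0 β, ee a b m C (t * T) ^ 2 < ε / 2 := by
    calc 1 / (2 * η) * ∫ t in Ioo 0 β, ee a b m C (t * T) ^ 2 < 1 / (2 * η) * (η * ε) :=
          mul_lt_mul_of_pos_left e1 (by positivity)
      _ = ε / 2 := by field_simp
  have e6 : η / 2 * G ≤ ε / 2 := by
    rw [hη]
    rw [div_div, div_mul_eq_mul_div, div_le_div_iff₀ (by positivity) two_pos]
    nlinarith
  linarith

theorem g_int {g : ℝ → ℝ} {β : ℝ} (hg : Measurable g)
    (h2 : IntegrableOn (fun t => g t ^ 2) (Ioo 0 β)) : IntegrableOn g (Ioo 0 β) := by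
  have h1 : IntegrableOn (fun t => 1 + g t ^ 2) (Ioo 0 β) :=
    (continuous_const.integrableOn_Ioc.mono_set Ioo_subset_Ioc_self).add h2
  refine Integrable.mono' h1 hg.aestronglyMeasurable (ae_of_all _ fun t => ?_)
  rw [Real.norm_eq_abs]
  have : g t ^ 2 = |g t| ^ 2 := (sq_abs _).symm
  rw [this]
  nlinarith [sq_nonneg (|g t| - 1), abs_nonneg (g t)]

theorem g_log_int {g : ℝ → ℝ} {β : ℝ} (hg : Measurable g)
    (h2 : IntegrableOn (fun t => g t ^ 2) (Ioo 0 β)) :
    IntegrableOn (fun t => g t * Real.log t) (Ioo 0 β) := by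
  have h1 : IntegrableOn (fun t => g t ^ 2 + Real.log t ^ 2) (Ioo 0 β) :=
    h2.add ((log_sq_int β).mono_set Ioo_subset_Ioc_self)
  refine Integrable.mono' h1 (hg.mul Real.measurable_log).aestronglyMeasurable
    (ae_of_all _ fun t => ?_)
  rw [Real.norm_eq_abs, abs_mul]
  have e1 : g t ^ 2 = |g t| ^ 2 := (sq_abs _).symm
  have e2 : Real.log t ^ 2 = |Real.log t| ^ 2 := (sq_abs _).symm
  rw [e1, e2]
  nlinarith [sq_nonneg (|g t| - |Real.log t|), abs_nonneg (g t), abs_nonneg (Real.log t),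
    mul_nonneg (abs_nonneg (g t)) (abs_nonneg (Real.log t))]

theorem tail_eq {g : ℝ → ℝ} {β u : ℝ} (hu : 0 < u) :
    tailInt g β u = ∫ t in Ioo 0 β, (Ici u).indicator g t := by
  unfold tailInt
  rw [max_eq_left hu.le, setIntegral_indicator measurableSet_Ici]
  rw [← integral_Ico_eq_integral_Ioo]
  congr 2
  ext t
  constructor
  · intro h
    exact ⟨⟨hu.trans_le h.1, h.2⟩, h.1⟩
  · intro h
    exact ⟨h.2, h.1.2⟩

theorem S_smooth {g : ℝ → ℝ} {β : ℝ} (hg : Measurable g)
    (h2 : IntegrableOn (fun t => g t ^ 2) (Ioo 0 β)) {X : ℝ} (hX : 1 < X) :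
    S a b (tailInt g β) β X =
      ∫ t in Ioo 0 β, g t * Real.log (bsdProduct a b (Real.exp (t * Real.log X))) := by
  have hT : 0 < Real.log X := Real.log_pos hX
  have hX0 : 0 < X := by linarith
  have hgi := g_int hg h2
  set A : Finset ℕ := (Finset.range (⌊X ^ β⌋₊ + 1)).filter (GoodPrime a b) with hA
  have hS : S a b (tailInt g β) β X = ∑ p ∈ A, ∫ t in Ioo 0 β,
      (Ici (Real.log p / Real.log X)).indicator g t * ll a b p := by
    unfold S
    refine Finset.sum_congr rfl fun p hp => ?_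
    have hg1 : GoodPrime a b p := (Finset.mem_filter.1 hp).2
    have h1 : 0 < Real.log p / Real.log X :=
      div_pos (Real.log_pos (by exact_mod_cast hg1.1.one_lt)) hT
    rw [tail_eq h1, integral_mul_const]
    rfl
  rw [hS, ← integral_finsetSum]
  · refine setIntegral_congr_fun measurableSet_Ioo fun t ht => ?_
    rw [log_product, Finset.mul_sum]
    have e1 : ∀ p ∈ A, (Ici (Real.log p / Real.log X)).indicator g t * ll a b p =
        if Real.log p / Real.log X ≤ t then g t * ll a b p else 0 := by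
      intro p _
      by_cases h : Real.log p / Real.log X ≤ t
      · rw [indicator_of_mem (show t ∈ Ici (Real.log p / Real.log X) from h), if_pos h]
      · rw [indicator_of_notMem (show t ∉ Ici (Real.log p / Real.log X) from h), if_neg h, zero_mul]
    rw [Finset.sum_congr rfl e1, ← Finset.sum_filter]
    refine Finset.sum_congr ?_ fun _ _ => rfl
    ext p
    rw [Finset.mem_filter, Finset.mem_filter, Finset.mem_filter, Finset.mem_range, Finset.mem_range,
      Nat.lt_succ_iff, Nat.lt_succ_iff, Nat.le_floor_iff (by positivity),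
      Nat.le_floor_iff (Real.exp_pos _).le]
    have hiff : GoodPrime a b p → ((p : ℝ) ≤ Real.exp (t * Real.log X) ↔
        Real.log p / Real.log X ≤ t) := by
      intro hg1
      have hp0 : (0 : ℝ) < p := by exact_mod_cast hg1.1.pos
      rw [div_le_iff₀ hT, Real.log_le_iff_le_exp hp0]
    have hle : Real.exp (t * Real.log X) ≤ X ^ β := by
      rw [Real.rpow_def_of_pos hX0]
      apply Real.exp_le_exp.2
      have := mul_le_mul_of_nonneg_right ht.2.le hT.le
      linarith
    constructor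
    · rintro ⟨⟨-, h3⟩, h4⟩
      exact ⟨(hiff h3).2 h4, h3⟩
    · rintro ⟨h3, h4⟩
      exact ⟨⟨h3.trans hle, h4⟩, (hiff h4).1 h3⟩
  · intro p _
    exact (Integrable.indicator hgi measurableSet_Ici).mul_const _

/-- **the limit for the weights of Sobolev type** -/
theorem smooth_lim {m : ℕ} {C : ℝ} {g : ℝ → ℝ} {β : ℝ} (hβ : 0 < β) (hg : Measurable g)
    (h2 : IntegrableOn (fun t => g t ^ 2) (Ioo 0 β)) (h1 : ∫ t in Ioo 0 β, g t = 1)
    (h : Tendsto (fun V : ℝ => (∫ v in (0 : ℝ)..V, ee a b m C v ^ 2) / V) atTop (𝓝 0)) :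
    Tendsto (fun X : ℝ => S a b (tailInt g β) β X - m * Real.log (Real.log X)) atTop
      (𝓝 (Real.log C + m * ∫ t in Ioo 0 β, g t * Real.log t)) := by
  have h3 := ((ee_weighted (a := a) (b := b) hβ h2 h).comp Real.tendsto_log_atTop).add_const
    (Real.log C + m * ∫ t in Ioo 0 β, g t * Real.log t)
  rw [zero_add] at h3
  refine h3.congr' ?_
  filter_upwards [eventually_gt_atTop 1] with X hX
  have hT : 0 < Real.log X := Real.log_pos hX
  simp only [Function.comp_apply]
  rw [S_smooth hg h2 hX]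
  have hgi := g_int hg h2
  have hgl := g_log_int hg h2
  -- the product term
  have i1 : IntegrableOn (fun t => g t * Real.log (bsdProduct a b (Real.exp (t * Real.log X))))
      (Ioo 0 β) := by
    obtain ⟨M, hM⟩ := log_product_bd (a := a) (b := b) (β * Real.log X)
    refine Integrable.mono' (hgi.norm.mul_const M) ?_ ?_
    · exact (hg.mul (log_product_meas.comp (measurable_id.mul_const _))).aestronglyMeasurable
    · filter_upwards [ae_restrict_mem measurableSet_Ioo] with t ht
      rw [norm_mul]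
      refine mul_le_mul_of_nonneg_left ?_ (norm_nonneg _)
      exact hM _ (mul_le_mul_of_nonneg_right ht.2.le hT.le)
  have e1 : ∫ t in Ioo 0 β, g t * ee a b m C (t * Real.log X) =
      ∫ t in Ioo 0 β, (g t * Real.log (bsdProduct a b (Real.exp (t * Real.log X))) -
        m * (g t * Real.log t) - (m * Real.log (Real.log X) + Real.log C) * g t) := by
    refine setIntegral_congr_fun measurableSet_Ioo fun t ht => ?_
    unfold ee
    rw [Real.log_mul ht.1.ne' hT.ne']
    ring
  have i2 : IntegrableOn (fun t => g t * Real.log (bsdProduct a b (Real.exp (t * Real.log X))) -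
      m * (g t * Real.log t)) (Ioo 0 β) := i1.sub (hgl.const_mul _)
  rw [e1, integral_sub i2 (hgi.const_mul _), integral_sub i1 (hgl.const_mul _), integral_const_mul, integral_const_mul, h1]
  ring

/-- the limit for the Riesz weights -/
theorem riesz_eq {k : ℝ} (hk : 0 < k) {X : ℝ} (hX : 1 < X) : S a b (riesz k) 1 X =
    Pool.Agent.TH942.LS.S Pool.Agent.TH942.LS.lm (Pool.Agent.TH942.LS.cE a b)
      (Pool.Agent.TH942.RZ.rzw k) (Real.log X) := by
  rw [← Pool.Agent.TH942.RZ.rz_eq hk hX]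
  unfold S Pool.Agent.TH942.RZ.rz
  rw [Real.rpow_one]
  refine Finset.sum_congr rfl fun p hp => ?_
  obtain ⟨h1, h2⟩ := Finset.mem_filter.1 hp
  have hT : 0 < Real.log X := Real.log_pos hX
  have hp1 : (1 : ℝ) < p := by exact_mod_cast h2.1.one_lt
  have h3 : (p : ℝ) ≤ X := by
    rw [Finset.mem_range, Nat.lt_succ_iff] at h1
    exact (Nat.le_floor_iff (by linarith)).1 h1
  have h4 : Real.log p / Real.log X ≤ 1 := by
    rw [div_le_one hT]
    exact Real.log_le_log (by linarith) h3
  have h5 : 0 < Real.log p / Real.log X := div_pos (Real.log_pos hp1) hT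
  unfold riesz
  rw [indicator_of_mem (show Real.log p / Real.log X ∈ Ioc (0 : ℝ) 1 from ⟨h5, h4⟩)]
  rfl

/-- **the limit for regular weights** -/
theorem regular_lim (hΔ : 4 * a ^ 3 + 27 * b ^ 2 ≠ 0) (hF : IsLSeries a b F)
    {N' : ℕ} [NeZero N'] {f : CuspForm (Gamma0 N' : Subgroup (GL (Fin 2) ℝ)) 2}
    (hf : Pool.Agent.TH941.Hecke f) (hb : Pool.Agent.TH941.Belongs a b f)
    {m : ℕ} (hm : analyticOrderAt F 1 = m) (hz : NoZeros F) {w : ℝ → ℝ} {β c : ℝ}
    (hw : Regular w β c) :
    ∃ κ : ℝ, Tendsto (fun X : ℝ => S a b w β X - m * Real.log (Real.log X)) atTop (𝓝 κ) ∧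
      (Real.exp κ : ℂ) * (iteratedDeriv m F 1 / (m.factorial : ℂ)) =
        ((√2 * Real.exp (m * c) : ℝ) : ℂ) := by
  have hF' : Pool.Agent.W263.BSD.IsLSeries a b F := hF
  have hrs : Tendsto (rsSum a b) atTop (𝓝 0) := hf.rsSum_tendsto hΔ hb
  have hgr := Pool.Agent.TH942.RZ.growth_newform hΔ hF' hf hb
  cases hw with
  | riesz k hk =>
    obtain ⟨κ, h1, h2⟩ := Pool.Agent.TH942.RZ.curve_riesz hΔ hrs hgr hF' hm hz hk
    refine ⟨κ, ?_, ?_⟩
    · refine (h1.comp Real.tendsto_log_atTop).congr' ?_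
      filter_upwards [eventually_gt_atTop 1] with X hX
      simp only [Function.comp_apply]
      rw [riesz_eq hk hX]
    · rw [h2, mul_neg]
  | sobolev g β hβ hg h2 h1 =>
    obtain ⟨κ₁, -, h4⟩ := Pool.Agent.TH942.RZ.curve_riesz hΔ hrs hgr hF' hm hz one_pos
    set γ : ℝ := Real.eulerMascheroniConstant with hγ
    set q : ℝ := √2 * Real.exp (-(m * (deriv Real.Gamma (1 + 1) / Real.Gamma (1 + 1)))) /
      Real.exp κ₁ with hq
    have hq0 : 0 < q := by positivity
    have h5 : iteratedDeriv m F 1 / (m.factorial : ℂ) = ((q : ℝ) : ℂ) := by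
      have h6 : (Real.exp κ₁ : ℂ) ≠ 0 := by
        exact_mod_cast (Real.exp_pos κ₁).ne'
      rw [hq]
      push_cast
      push_cast at h4
      rw [eq_div_iff (by exact_mod_cast h6), mul_comm]
      exact h4
    set C : ℝ := √2 * Real.exp (m * γ) / q with hC
    have hC0 : 0 < C := by positivity
    have h6 : iteratedDeriv m F 1 / (m.factorial : ℂ) =
        ((√2 * Real.exp (m * γ) / C : ℝ) : ℂ) := by
      rw [h5, hC]
      congr 1
      field_simp
    obtain ⟨C₀, κ', hg'⟩ := Pool.Agent.TH270.MS.EQ.growth_F hΔ hF' hf hb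
    have tf := Pool.Agent.TH270.MS.EQ.curve_law hΔ hF' hrs (by norm_num : (0 : ℝ) < 1 / 8) hg'
      (m : ℝ) hC0
    have h7 : Tendsto (fun X : ℝ => (∫ x in Real.exp 1..X, dev a b m C x ^ 2 / x) / Real.log X)
        atTop (𝓝 0) := by
      have e1 := tf.out 0 2
      exact e1.1 ⟨hz, m, rfl, hm, h6⟩
    have h8 := smooth_lim (a := a) (b := b) (m := m) (C := C) hβ hg h2 h1 (ee_mean hC0 h7)
    refine ⟨_, h8, ?_⟩
    rw [h5, Real.exp_add, Real.exp_log hC0, ← Complex.ofReal_mul, mul_add, Real.exp_add]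
    congr 1
    rw [hC]
    field_simp

end forward

/-! ### rational points -/

theorem numPoints_growth (hΔ : 4 * a ^ 3 + 27 * b ^ 2 ≠ 0) : ∃ κ : ℝ,
    Tendsto (fun X : ℝ => 2 * Real.log (numPoints a b X) - rank a b * Real.log (Real.log X)) atTop
      (𝓝 κ) := by
  obtain ⟨κ, hκ, h⟩ := Pool.Agent.TH942.ratCount_growth hΔ
  refine ⟨2 * Real.log κ, ?_⟩
  have h1 := ((Real.continuousAt_log hκ.ne').tendsto.comp h).const_mul 2
  refine h1.congr' ?_
  filter_upwards [eventually_gt_atTop 1] with X hX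
  have hT : 0 < Real.log X := Real.log_pos hX
  simp only [Function.comp_apply]
  have e1 : (0 : ℝ) < (Pool.Agent.TH942.ratCount a b X : ℝ) := by
    unfold Pool.Agent.TH942.ratCount
    positivity
  have e2 : Module.finrank ℤ (Pool.Agent.TH942.SPt (a : ℚ) (b : ℚ)) = rank a b := rfl
  have e3 : numPoints a b X = Pool.Agent.TH942.ratCount a b X := rfl
  rw [e2, e3, Real.log_div e1.ne' (Real.rpow_pos_of_pos hT _).ne', Real.log_rpow hT]
  ring

theorem loglog_atTop : Tendsto (fun X : ℝ => Real.log (Real.log X)) atTop atTop :=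
  Real.tendsto_log_atTop.comp Real.tendsto_log_atTop

/-! ### the newform -/

/-- The `n`-th Fourier coefficient of `f`. -/
noncomputable def coef {M : ℕ} (f : CuspForm (Gamma0 M : Subgroup (GL (Fin 2) ℝ)) 2) (n : ℕ) : ℂ :=
  (qExpansion 1 f).coeff n

/-- `f ∈ S_2(Γ₀(M))` is the newform of the elliptic curve `y² = x³ + a x + b` of conductor `M`: the
Fourier coefficients `c(n)` of `f` are real with `c(1) = 1`, they satisfy the Hecke relations
`c(mn) = c(m) c(n)` for coprime `m`, `n` and `c(p^(j+2)) = c(p) c(p^(j+1)) - p c(p^j)` (without the last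
term if `p ∣ M`), `c(p) = a_p = p - N_p` (`N_p` affine points) for all primes `p ∤ 2Δ`, `|c(p)| ≤ 2 √p` for
all `p ∤ M` (Hasse) and `c(p) = 0, 1, -1` for `p ∣ M`. -/
structure IsNewformOf (a b : ℤ) (M : ℕ) (f : CuspForm (Gamma0 M : Subgroup (GL (Fin 2) ℝ)) 2) :
    Prop where
  one : coef f 1 = 1
  real : ∀ n, (coef f n).im = 0
  mul : ∀ m n : ℕ, Nat.Coprime m n → coef f (m * n) = coef f m * coef f n
  pow : ∀ p j : ℕ, p.Prime → coef f (p ^ (j + 2)) = coef f p * coef f (p ^ (j + 1)) -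
      (if p ∣ M then 0 else (p : ℂ) * coef f (p ^ j))
  points : ∀ p : ℕ, Good a b p → coef f p = (p : ℂ) - (N a b p : ℂ)
  good : ∀ p : ℕ, p.Prime → ¬ p ∣ M → ‖coef f p‖ ≤ 2 * Real.sqrt p
  bad : ∀ p : ℕ, p.Prime → p ∣ M → coef f p = 0 ∨ coef f p = 1 ∨ coef f p = -1

theorem hecke {M : ℕ} {f : CuspForm (Gamma0 M : Subgroup (GL (Fin 2) ℝ)) 2}
    (hf : IsNewformOf a b M f) : Pool.Agent.TH941.Hecke f where
  one := hf.one
  real := hf.real
  mul := hf.mul
  pow := hf.pow
  good := hf.good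
  bad := fun p hp h => by
    rcases hf.bad p hp h with h1 | h1 | h1
    · have h2 : ‖coef f p‖ ≤ 1 := by rw [h1]; simp
      exact h2
    · have h2 : ‖coef f p‖ ≤ 1 := by rw [h1]; simp
      exact h2
    · have h2 : ‖coef f p‖ ≤ 1 := by rw [h1]; simp
      exact h2

/-- the Riesz weights are truncated weights -/
theorem riesz_weight {k : ℝ} (hk : 0 < k) : Weight (riesz k) 1 := by
  have h : riesz k = Pool.Agent.TH942.RZ.rzv k := by
    unfold riesz Pool.Agent.TH942.RZ.rzv
    refine indicator_congr fun u hu => ?_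
    unfold Pool.Agent.TH942.RZ.rzw
    rw [max_eq_left (by linarith [hu.2])]
  rw [h]
  have h1 := Pool.Agent.TH942.RZ.rzv_Wt hk
  exact ⟨h1.meas, ⟨1, h1.bd⟩, one_pos, h1.supp, Pool.Agent.TH942.RZ.rzv_top,
    Pool.Agent.TH942.RZ.rzv_dini hk⟩

/-- **Every truncated numerical form of the conjecture of Birch and Swinnerton-Dyer.** -/
theorem result (a b : ℤ) (hΔ : 4 * a ^ 3 + 27 * b ^ 2 ≠ 0) (F : ℂ → ℂ) (hF : IsLSeries a b F) :
    ∃ m : ℕ, analyticOrderAt F 1 = m ∧
    -- every truncated weight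
    (∀ (w : ℝ → ℝ) (β : ℝ), Weight w β →
      (∀ s : ℂ, 1 < s.re → F s = 0 → ∀ α C : ℝ, α < β * (s.re - 1) →
        ∃ᶠ X : ℝ in atTop, C * X ^ α < |S a b w β X|) ∧
      (∀ ρ : ℝ, Tendsto (fun X : ℝ => S a b w β X / Real.log (Real.log X)) atTop (𝓝 ρ) →
        NoZeros F ∧ ρ = m) ∧
      -- one-sided bounds for nonnegative weights
      ((∀ u, 0 ≤ w u) →
        (∀ s : ℂ, 1 < s.re → F s = 0 → ∀ α C : ℝ, α < β * (s.re - 1) →
          ∃ᶠ X : ℝ in atTop, C * X ^ α < S a b w β X) ∧
        ∀ ρ : ℝ, (∀ ε : ℝ, 0 < ε → ∀ᶠ X : ℝ in atTop,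
          S a b w β X ≤ (ρ + ε) * Real.log (Real.log X)) → NoZeros F ∧ (m : ℝ) ≤ ρ)) ∧
    -- regular weights
    ∀ (M : ℕ) [NeZero M] (f : CuspForm (Gamma0 M : Subgroup (GL (Fin 2) ℝ)) 2),
      IsNewformOf a b M f → ∀ (w : ℝ → ℝ) (β c : ℝ), Weight w β → Regular w β c →
      (NoZeros F ↔ ∃ κ : ℝ,
        Tendsto (fun X : ℝ => S a b w β X - m * Real.log (Real.log X)) atTop (𝓝 κ)) ∧
      (NoZeros F → ∃ κ : ℝ,
        Tendsto (fun X : ℝ => S a b w β X - m * Real.log (Real.log X)) atTop (𝓝 κ) ∧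
        (Real.exp κ : ℂ) * (iteratedDeriv m F 1 / (m.factorial : ℂ)) =
          ((√2 * Real.exp (m * c) : ℝ) : ℂ)) ∧
      ((∀ u, 0 ≤ w u) →
        List.TFAE [
          analyticOrderAt F 1 = rank a b ∧ NoZeros F,
          (∀ ε : ℝ, 0 < ε → ∀ᶠ X : ℝ in atTop,
              S a b w β X ≤ (rank a b + ε) * Real.log (Real.log X)) ∧
            ∀ ε : ℝ, 0 < ε → ∃ᶠ X : ℝ in atTop,
              (rank a b - ε) * Real.log (Real.log X) ≤ S a b w β X,
          ∃ κ : ℝ, Tendsto (fun X : ℝ => S a b w β X - 2 * Real.log (numPoints a b X)) atTop (𝓝 κ),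
          ∃ B : ℝ, ∀ᶠ X : ℝ in atTop, |S a b w β X - 2 * Real.log (numPoints a b X)| ≤ B] ∧
        List.TFAE [
          analyticOrderAt F 1 ≤ rank a b ∧ NoZeros F,
          ∃ B : ℝ, ∀ᶠ X : ℝ in atTop, S a b w β X ≤ 2 * Real.log (numPoints a b X) + B,
          ∀ ε : ℝ, 0 < ε → ∀ᶠ X : ℝ in atTop,
            S a b w β X ≤ 2 * Real.log (numPoints a b X) + ε * Real.log (Real.log X)]) := by
  obtain ⟨m, hm⟩ : ∃ m : ℕ, analyticOrderAt F 1 = m :=
    Pool.Agent.W189.ML.order_finite_all (a := a) (b := b) hF 1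
  refine ⟨m, hm, fun w β hw => ⟨fun s hs h0 α C hα => omega_two hw hF hs h0 C hα,
    fun ρ h => limit_two hw hF hm h, fun hw0 => ⟨fun s hs h0 α C hα =>
      omega_one hw hw0 hF hs h0 C hα, fun ρ h => limit_one hw hw0 hF hm h⟩⟩, ?_⟩
  intro M _ f hf w β c hw hreg
  have hreg' := fun hz : NoZeros F => regular_lim hΔ hF (hecke hf) hf.points hm hz hreg
  obtain ⟨κ₀, hN⟩ := numPoints_growth (a := a) (b := b) hΔ
  set r : ℕ := rank a b with hr
  set L : ℝ → ℝ := fun X => Real.log (Real.log X) with hL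
  have hLt : Tendsto L atTop atTop := loglog_atTop
  -- bounded differences are negligible
  have hbd : ∀ (g : ℝ → ℝ) (κ ε : ℝ), Tendsto g atTop (𝓝 κ) → 0 < ε →
      ∀ᶠ X : ℝ in atTop, |g X| ≤ ε * L X := by
    intro g κ ε hg hε
    have h1 : ∀ᶠ X in atTop, |g X| < |κ| + 1 := hg.abs.eventually (gt_mem_nhds (lt_add_one _))
    have h2 := (hLt.const_mul_atTop hε).eventually_ge_atTop (|κ| + 1)
    filter_upwards [h1, h2] with X e1 e2
    linarith
  refine ⟨⟨fun hz => ?_, fun ⟨κ, h⟩ => ?_⟩, hreg', fun hw0 => ⟨?_, ?_⟩⟩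
  · obtain ⟨κ, h1, -⟩ := hreg' hz
    exact ⟨κ, h1⟩
  · refine (limit_two hw hF hm (ρ := m) ?_).1
    have h1 : Tendsto (fun X => (S a b w β X - m * L X) / L X) atTop (𝓝 0) := h.div_atTop hLt
    have h2 := h1.add_const (m : ℝ)
    rw [zero_add] at h2
    refine h2.congr' ?_
    filter_upwards [hLt.eventually_gt_atTop 0] with X hX
    show (S a b w β X - m * L X) / L X + m = S a b w β X / L X
    have : L X ≠ 0 := hX.ne'
    field_simp
    ring
  · tfae_have 1 → 3 := by
      rintro ⟨h1, hz⟩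
      obtain ⟨κ, h2, -⟩ := hreg' hz
      have h3 : m = r := by
        rw [hm] at h1
        exact_mod_cast h1
      refine ⟨κ - κ₀, (h2.sub hN).congr fun X => ?_⟩
      rw [h3]
      ring
    tfae_have 3 → 4 := by
      rintro ⟨κ, h⟩
      exact ⟨|κ| + 1, (h.abs.eventually (gt_mem_nhds (lt_add_one _))).mono fun X hX => hX.le⟩
    tfae_have 4 → 2 := by
      rintro ⟨B, h⟩
      have hB : Tendsto (fun _ : ℝ => B) atTop (𝓝 B) := tendsto_const_nhds
      have key : ∀ ε : ℝ, 0 < ε → ∀ᶠ X : ℝ in atTop, |S a b w β X - r * L X| ≤ ε * L X := by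
        intro ε hε
        filter_upwards [h, hbd _ _ (ε / 2) hN (by linarith), hbd _ _ (ε / 2) hB (by linarith)]
          with X e1 e2 e3
        have e4 := abs_add_le (S a b w β X - 2 * Real.log (numPoints a b X))
          (2 * Real.log (numPoints a b X) - r * Real.log (Real.log X))
        have e5 := le_abs_self B
        have e6 : S a b w β X - r * L X = S a b w β X - 2 * Real.log (numPoints a b X) +
          (2 * Real.log (numPoints a b X) - r * Real.log (Real.log X)) := by
          simp only [hL]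
          ring
        rw [e6]
        linarith
      refine ⟨fun ε hε => ?_, fun ε hε => ?_⟩
      · filter_upwards [key ε hε] with X e1
        have := (abs_le.1 e1).2
        show S a b w β X ≤ (r + ε) * L X
        linarith
      · refine Eventually.frequently ?_
        filter_upwards [key ε hε] with X e1
        have := (abs_le.1 e1).1
        show (r - ε) * L X ≤ S a b w β X
        linarith
    tfae_have 2 → 1 := by
      rintro ⟨h1, h2⟩
      obtain ⟨hz, h3⟩ := limit_one hw hw0 hF hm (ρ := r) h1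
      refine ⟨?_, hz⟩
      have h4 : m ≤ r := by exact_mod_cast h3
      rw [hm]
      by_contra hne
      have h5 : m < r := lt_of_le_of_ne h4 fun h => hne (by exact_mod_cast h)
      have h6 : (m : ℝ) + 1 ≤ r := by exact_mod_cast h5
      obtain ⟨κ, h7, -⟩ := hreg' hz
      have h8 := hbd _ _ (1 / 4) h7 (by norm_num)
      obtain ⟨X, e1, e2, e3⟩ := ((h2 (1 / 4) (by norm_num)).and_eventually
        (h8.and (hLt.eventually_gt_atTop 0))).exists
      have e4 := (abs_le.1 e2).2
      have e5 : (r - 1 / 4) * L X ≤ S a b w β X := e1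
      have e6 : S a b w β X - m * L X ≤ 1 / 4 * L X := e4
      nlinarith
    tfae_finish
  · tfae_have 1 → 2 := by
      rintro ⟨h1, hz⟩
      obtain ⟨κ, h2, -⟩ := hreg' hz
      have h3 : m ≤ r := by
        rw [hm] at h1
        exact_mod_cast h1
      have h3' : (m : ℝ) ≤ r := by exact_mod_cast h3
      refine ⟨|κ - κ₀| + 1, ?_⟩
      have h4 := ((h2.sub hN).abs.eventually (gt_mem_nhds (lt_add_one _)))
      filter_upwards [h4, hLt.eventually_gt_atTop 0] with X e1 e2
      have e3 := (abs_lt.1 e1).2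
      have e4 : (m : ℝ) * L X ≤ r * L X := mul_le_mul_of_nonneg_right h3' e2.le
      simp only [hL] at e4
      linarith
    tfae_have 2 → 3 := by
      rintro ⟨B, h⟩ ε hε
      have hB : Tendsto (fun _ : ℝ => B) atTop (𝓝 B) := tendsto_const_nhds
      filter_upwards [h, hbd _ _ ε hB hε] with X e1 e2
      have := le_abs_self B
      linarith
    tfae_have 3 → 1 := by
      intro h
      obtain ⟨hz, h3⟩ := limit_one hw hw0 hF hm (ρ := r) fun ε hε => by
        filter_upwards [h (ε / 2) (by linarith), hbd _ _ (ε / 2) hN (by linarith)] with X e1 e2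
        have e3 := (abs_le.1 e2).2
        show S a b w β X ≤ (r + ε) * L X
        simp only [hL] at e3 ⊢
        linarith
      refine ⟨?_, hz⟩
      have h4 : m ≤ r := by exact_mod_cast h3
      rw [hm]
      exact_mod_cast h4
    tfae_finish

end Pool.Agent.Results.MP_696deb_nt.TruncatedWeights
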